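import Pool.Agent.H26.PX.Cob

/-!
The Euler characteristic of a residually finite subgroup of infinite index of a `PD_3`-group is not
positive.
-/

set_option autoImplicit false
set_option linter.unusedSectionVars false

namespace Pool.Agent.H26.PD.PX

open Pool.Agent.Helper386.PD3 Pool.Agent.H26.PD.PN Pool.Agent.H26.PD.PK Pool.Agent.H26.PD.PS
open scoped Classical Matrix

noncomputable section

/-- residually finite -/
def ResF (T : Type) [Group T] : Prop :=
  ∀ t : T, t ≠ 1 → ∃ (P : Type) (_ : Group P) (_ : Finite P) (f : T →* P), f t ≠ 1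

theorem resF_finset {T : Type} [Group T] (h : ResF T) (s : Finset T) (hs : ∀ t ∈ s, t ≠ 1) :
    ∃ (P : Type) (_ : Group P) (_ : Finite P) (f : T →* P), ∀ t ∈ s, f t ≠ 1 := by
  induction s using Finset.induction_on with
  | empty =>
    exact ⟨Unit, inferInstance, inferInstance, 1, fun t ht => absurd ht (Finset.notMem_empty t)⟩
  | insert a s ha ih =>
    obtain ⟨P, iP, fP, f, hf⟩ := ih fun t ht => hs t (Finset.mem_insert_of_mem ht)
    obtain ⟨P', iP', fP', f', hf'⟩ := h a (hs a (Finset.mem_insert_self _ _))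
    refine ⟨P × P', inferInstance, inferInstance, f.prod f', ?_⟩
    intro t ht h1
    rcases Finset.mem_insert.1 ht with rfl | ht
    · exact hf' (congrArg Prod.snd h1)
    · exact hf t ht (congrArg Prod.fst h1)

/-- counting along a homomorphism -/
theorem card_hom {A B : Type} [AddCommGroup A] [AddCommGroup B] (g : A →+ B) :
    Nat.card A = Nat.card g.ker * Nat.card g.range := by
  rw [AddSubgroup.card_eq_card_quotient_mul_card_addSubgroup g.ker, mul_comm,
    Nat.card_congr (QuotientAddGroup.quotientKerEquivRange g).toEquiv]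

theorem card_hom_le {A B : Type} [AddCommGroup A] [AddCommGroup B] [Finite B] (g : A →+ B)
    (H : AddSubgroup B) (hg : ∀ a, g a ∈ H) : Nat.card A ≤ Nat.card g.ker * Nat.card H := by
  rw [card_hom g]
  refine Nat.mul_le_mul_left _ ?_
  have hle : g.range ≤ H := by
    rintro _ ⟨a, rfl⟩
    exact hg a
  exact Nat.card_le_card_of_injective _ (AddSubgroup.inclusion_injective hle)

variable {Γ : Type} [Group Γ] [Fintype Γ] {m : ℕ}

/-- **Orthogonality.** -/
theorem card_orth (O R : AddSubgroup (Fin m → MonoidAlgebra (ZMod 2) Γ))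
    (hOR : ∀ v ∈ O, ∀ z ∈ R, ∑ b, ∑ g, (v b).coeff g * (z b).coeff g = 0) :
    Nat.card O * Nat.card R ≤ Nat.card (Fin m → MonoidAlgebra (ZMod 2) Γ) := by
  let V := Fin m → MonoidAlgebra (ZMod 2) Γ
  let R' : Submodule (ZMod 2) V := AddSubgroup.toZModSubmodule 2 R
  have hR' : ∀ z, z ∈ R' ↔ z ∈ R := fun z => Iff.rfl
  let pair : V → (V →ₗ[ZMod 2] ZMod 2) := fun v =>
    { toFun := fun z => ∑ b, ∑ g, (v b).coeff g * (z b).coeff g
      map_add' := by
        intro z z'
        rw [← Finset.sum_add_distrib]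
        refine Finset.sum_congr rfl fun b _ => ?_
        rw [← Finset.sum_add_distrib]
        exact Finset.sum_congr rfl fun g _ => mul_add _ _ _
      map_smul' := by
        intro c z
        rw [RingHom.id_apply, smul_eq_mul, Finset.mul_sum]
        refine Finset.sum_congr rfl fun b _ => ?_
        rw [Finset.mul_sum]
        refine Finset.sum_congr rfl fun g _ => ?_
        change (v b).coeff g * (c * (z b).coeff g) = _
        ring }
  have hpair : ∀ v z, pair v z = ∑ b, ∑ g, (v b).coeff g * (z b).coeff g := fun _ _ => rfl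
  let F : O → Module.Dual (ZMod 2) (V ⧸ R') := fun v =>
    R'.liftQ (pair v.1) (fun z hz => LinearMap.mem_ker.2 (hOR v.1 v.2 z hz))
  have hF : Function.Injective F := by
    intro v v' h
    apply Subtype.ext
    funext b
    apply MonoidAlgebra.coeff_injective
    ext g
    have h1 : ∀ v : O, F v (R'.mkQ (Pi.single b (MonoidAlgebra.single g 1))) = (v.1 b).coeff g := by
      intro v
      change pair v.1 (Pi.single b (MonoidAlgebra.single g 1)) = _
      rw [hpair, Finset.sum_eq_single b, Finset.sum_eq_single g]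
      · rw [Pi.single_eq_same, MonoidAlgebra.coeff_single, Finsupp.single_eq_same, mul_one]
      · intro g' _ hg'
        rw [Pi.single_eq_same, MonoidAlgebra.coeff_single, Finsupp.single_apply,
          if_neg (Ne.symm hg'), mul_zero]
      · intro h
        exact absurd (Finset.mem_univ _) h
      · intro b' _ hb'
        refine Finset.sum_eq_zero fun g' _ => ?_
        rw [Pi.single_eq_of_ne hb']
        exact mul_zero _
      · intro h
        exact absurd (Finset.mem_univ _) h
    rw [← h1 v, ← h1 v', h]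
  have hfinV : Finite V := inferInstance
  have hfinQ : Finite (V ⧸ R') := Quotient.finite _
  have hfinQ' : Module.Finite (ZMod 2) (V ⧸ R') := Module.Finite.of_finite
  have h1 : Nat.card (Module.Dual (ZMod 2) (V ⧸ R')) = Nat.card (V ⧸ R') := by
    rw [Module.natCard_eq_pow_finrank (K := ZMod 2), Subspace.dual_finrank_eq,
      ← Module.natCard_eq_pow_finrank]
  have hfinD : Finite (Module.Dual (ZMod 2) (V ⧸ R')) := by
    refine Finite.of_injective (fun l : Module.Dual (ZMod 2) (V ⧸ R') => (l : V ⧸ R' → ZMod 2))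
      DFunLike.coe_injective
  have h2 : Nat.card O ≤ Nat.card (V ⧸ R') := h1 ▸ Nat.card_le_card_of_injective F hF
  have h3 : Nat.card V = Nat.card R' * Nat.card (V ⧸ R') :=
    Submodule.card_eq_card_quotient_mul_card R'
  change Nat.card O * Nat.card R' ≤ Nat.card V
  rw [h3, mul_comm]
  exact Nat.mul_le_mul_left _ h2

variable {G : Type} [Group G] {S : Subgroup G} {n : ℕ} {w : G →* ℤˣ}
  {e0 e1 e2 e3 d0 d1 d2 : MR G n}

/-- vectors fixed by the whole group are constant -/
theorem fixed_const (f : S →* Γ) (hfs : Function.Surjective f) {h : Fin m → S}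
    (hgen : Subgroup.closure (Set.range h) = ⊤) {v : MonoidAlgebra (ZMod 2) Γ}
    (hv : ∀ b, aD w (lvl 2 f) (h b) v = v) (g : Γ) : v.coeff g = v.coeff 1 := by
  have hall : ∀ s : S, aD w (lvl 2 f) s v = v := by
    intro s
    have hact := isAct_aD (w := w) (lvl 2 f)
    have hs : s ∈ Subgroup.closure (Set.range h) := by rw [hgen]; trivial
    induction hs using Subgroup.closure_induction with
    | mem s hs =>
      obtain ⟨b, rfl⟩ := hs
      exact hv b
    | one =>
      rw [Subgroup.coe_one, hact.1]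
      rfl
    | mul s t _ _ hs ht =>
      rw [Subgroup.coe_mul, hact.2 s s.2 t t.2]
      change aD w (lvl 2 f) s (aD w (lvl 2 f) t v) = v
      rw [ht, hs]
    | inv s _ hs =>
      have h1 := hact.2 (s : G)⁻¹ (S.inv_mem s.2) s s.2
      rw [inv_mul_cancel, hact.1] at h1
      have h2 : v = aD w (lvl 2 f) (s : G)⁻¹ (aD w (lvl 2 f) s v) := LinearMap.congr_fun h1 v
      rw [hs] at h2
      rw [Subgroup.coe_inv, ← h2]
  obtain ⟨s, hs⟩ := hfs g
  have h1 := hall s
  rw [aD_apply _ s.2, dg_of, map_zsmul, lvl_of, map_inv, mul_smul_comm] at h1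
  have h3 : ∀ c : ZMod 2, ((w (s : G) : ℤˣ) : ℤ) • c = c := by
    intro c
    rcases Int.units_eq_one_or (w (s : G)) with h | h
    · rw [h]
      change (1 : ℤ) • c = c
      rw [one_smul]
    · rw [h]
      change (-1 : ℤ) • c = c
      revert c
      decide
  have h4 := congrArg (fun a : MonoidAlgebra (ZMod 2) Γ => a.coeff 1) h1
  change ((w (s : G) : ℤˣ) : ℤ) • (v * MonoidAlgebra.single (f s)⁻¹ (1 : ZMod 2)).coeff 1 =
    v.coeff 1 at h4
  rw [h3, MonoidAlgebra.coeff_mul_single_apply, inv_inv, mul_one, one_mul, hs] at h4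
  exact h4

/-- **The Euler characteristic.** -/
theorem chi_nonpos (hF : Full w e0 e1 e2 e3 d0 d1 d2) (hOE : OE G) [hG : Group.FG G]
    (hGi : Infinite G) (hS : ∃ s ∈ S, s ≠ 1)
    (htf : ∀ s : S, s ≠ 1 → ∀ k : ℕ, 0 < k → s ^ k ≠ 1) (hres : ResF S) (h : Fin m → S)
    (hgen : Subgroup.closure (Set.range h) = ⊤) (B : DB h) :
    ∑ l, eps (B.φ l (B.κ l)) + 1 ≤ (m : ℤ) := by
  by_contra hcon
  push Not at hcon
  obtain ⟨ε, hε, ⟨u, hu, hεu⟩, hεd, hεex⟩ := hF.low.aug
  have ht : ∀ g : G, ∃ t, t ᵥ* d0 = gof g • u - u := fun g =>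
    hεex (gof g • u - u) (by rw [Matrix.sub_vecMul, smul_vm, hu])
      (by rw [map_sub, hε, sub_self])
  choose t ht using ht
  obtain ⟨y, hy1, hpk⟩ := package hF h hgen B.κ
  -- supports
  obtain ⟨T, hT⟩ := hG.out
  have hsupp : ∀ g : G, evf (ut w S y) (t g) ∈ Fs S (Fin B.N → RR S) :=
    fun g => evf_mem (stable_Fs S _) (ut_Fs y) (t g)
  choose Fg hFg hFg' using hsupp
  obtain ⟨L, hL, hLf⟩ := ends_data hT hOE hGi hS
    (F := ⋃ g ∈ (T : Set G), Fg g) (T.finite_toSet.biUnion fun g _ => hFg g)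
  -- the finite quotient
  let R : ℕ := L.card
  obtain ⟨s0, hs0, hs01⟩ := hS
  obtain ⟨P, iP, fP, f0, hf0⟩ := resF_finset hres
    (insert ⟨s0, hs0⟩ (L.attach.biUnion fun q => (Finset.range (2 * R + 1)).image fun j =>
      (⟨q.1.2, (hL q.1 q.2).1⟩ : S) ^ (j + 1))) (by
      intro s hs
      rcases Finset.mem_insert.1 hs with rfl | hs
      · exact fun h1 => hs01 (congrArg Subtype.val h1)
      · obtain ⟨q, -, hq⟩ := Finset.mem_biUnion.1 hs
        obtain ⟨j, -, rfl⟩ := Finset.mem_image.1 hq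
        exact htf _ (fun h1 => (hL q.1 q.2).2 (congrArg Subtype.val h1)) _ (Nat.succ_pos j))
  let Γ : Type := f0.range
  have fΓ : Fintype Γ := Fintype.ofFinite _
  let f : S →* Γ := f0.rangeRestrict
  have hfs : Function.Surjective f := f0.rangeRestrict_surjective
  have hΓ : 2 ≤ Fintype.card Γ := by
    have h1 : f ⟨s0, hs0⟩ ≠ 1 := by
      intro h1
      exact hf0 _ (Finset.mem_insert_self _ _) (congrArg Subtype.val h1)
    have h2 : Nontrivial Γ := ⟨⟨_, _, h1⟩⟩
    exact Fintype.one_lt_card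
  have hf' : ∀ q (hq : q ∈ L), ∀ j < 2 * R + 1, f (⟨q.2, (hL q hq).1⟩ : S) ^ (j + 1) ≠ 1 := by
    intro q hq j hj
    rw [← map_pow]
    intro h1
    exact hf0 _ (Finset.mem_insert_of_mem (Finset.mem_biUnion.2 ⟨⟨q, hq⟩, Finset.mem_attach _ _,
      Finset.mem_image.2 ⟨j, Finset.mem_range.2 hj, rfl⟩⟩)) (congrArg Subtype.val h1)
  let i : RR S →+* MonoidAlgebra (ZMod 2) Γ := lvl 2 f
  -- the idempotent matrix
  let E : Matrix (Fin B.N) (Fin B.N) (RR S) := fun l j => B.φ j (B.κ l)
  have hE : E * E = E := by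
    ext1 l j
    rw [Matrix.mul_apply]
    change ∑ k, B.φ k (B.κ l) * B.φ j (B.κ k) = B.φ j (B.κ l)
    conv_rhs => rw [B.hκ (B.κ l), map_sum]
    exact Finset.sum_congr rfl fun k _ => by rw [map_smul, smul_eq_mul]
  obtain ⟨r, hr, hcard⟩ := card_fixed (p := 2) f hE
  have hrm : m ≤ r := by
    have h1 : (r : ℤ) = ∑ l, eps (B.φ l (B.κ l)) := hr
    rw [← h1] at hcon
    omega
  -- the groups
  let PA : AddSubgroup (Fin B.N → MonoidAlgebra (ZMod 2) Γ) :=
    { carrier := {a | ∀ j, ∑ l, a l * i (E l j) = a j}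
      add_mem' := by
        intro a b ha hb j
        simp only [Pi.add_apply, add_mul, Finset.sum_add_distrib]
        rw [ha j, hb j]
      zero_mem' := by
        intro j
        simp
      neg_mem' := by
        intro a ha j
        have h1 : ∑ l, a l * i (E l j) = a j := ha j
        change ∑ l, (-a l) * i (E l j) = -a j
        rw [← h1, ← Finset.sum_neg_distrib]
        exact Finset.sum_congr rfl fun l _ => neg_mul _ _ }
  have hPA : ∀ a, a ∈ PA ↔ ∀ j, ∑ l, a l * i (E l j) = a j := fun _ => Iff.rfl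
  let L1 : (Fin B.N → MonoidAlgebra (ZMod 2) Γ) →+ (Fin m → MonoidAlgebra (ZMod 2) Γ) :=
    AddMonoidHom.mk' (fun a b => ∑ k, a k * i ((B.κ k).1 b)) (fun a a' => by
      funext b
      simp only [Pi.add_apply, add_mul, Finset.sum_add_distrib])
  have hL1 : ∀ a b, L1 a b = ∑ k, a k * i ((B.κ k).1 b) := fun _ _ => rfl
  let L2 : (Fin B.N → MonoidAlgebra (ZMod 2) Γ) →+ (Fin m → MonoidAlgebra (ZMod 2) Γ) :=
    AddMonoidHom.mk' (fun a b => phi i a (evb (ut w S y) (t (h b : G)))) (fun a a' => by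
      funext b
      change phi i (a + a') _ = phi i a _ + phi i a' _
      simp only [phi_apply, Pi.add_apply, add_mul, Finset.sum_add_distrib])
  have hL2 : ∀ a b, L2 a b = phi i a (evb (ut w S y) (t (h b : G))) := fun _ _ => rfl
  let O : AddSubgroup (Fin m → MonoidAlgebra (ZMod 2) Γ) :=
    { carrier := {v | ∀ k, ∑ b, v b * i (dg (w.comp S.subtype) ((B.κ k).1 b)) = 0}
      add_mem' := by
        intro a b ha hb j
        simp only [Pi.add_apply, add_mul, Finset.sum_add_distrib]
        rw [ha j, hb j, add_zero]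
      zero_mem' := by
        intro j
        simp
      neg_mem' := by
        intro a ha j
        have h1 : ∑ b, a b * i (dg (w.comp S.subtype) ((B.κ j).1 b)) = 0 := ha j
        change ∑ b, (-a b) * i (dg (w.comp S.subtype) ((B.κ j).1 b)) = 0
        rw [← neg_zero, ← h1, ← Finset.sum_neg_distrib]
        exact Finset.sum_congr rfl fun l _ => neg_mul _ _ }
  have hO : ∀ v, v ∈ O ↔ ∀ k, ∑ b, v b * i (dg (w.comp S.subtype) ((B.κ k).1 b)) = 0 :=
    fun _ => Iff.rfl
  have hOR : ∀ v ∈ O, ∀ z ∈ L1.range, ∑ b, ∑ g, (v b).coeff g * (z b).coeff g = 0 := by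
    rintro v hv _ ⟨a, rfl⟩
    have hcs : ∀ (s : Finset (Fin B.N)) (c : Fin B.N → MonoidAlgebra (ZMod 2) Γ) g,
        (∑ k ∈ s, c k).coeff g = ∑ k ∈ s, (c k).coeff g := by
      intro s c g
      induction s using Finset.induction_on with
      | empty => rfl
      | insert b s hb ih =>
        rw [Finset.sum_insert hb, Finset.sum_insert hb, ← ih]
        rfl
    have hcs' : ∀ (s : Finset (Fin m)) (c : Fin m → MonoidAlgebra (ZMod 2) Γ) g,
        (∑ k ∈ s, c k).coeff g = ∑ k ∈ s, (c k).coeff g := by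
      intro s c g
      induction s using Finset.induction_on with
      | empty => rfl
      | insert b s hb ih =>
        rw [Finset.sum_insert hb, Finset.sum_insert hb, ← ih]
        rfl
    have h1 : ∀ b, ∑ g, (v b).coeff g * (L1 a b).coeff g =
        ∑ k, ∑ g, (a k).coeff g * (v b * i (dg (w.comp S.subtype) ((B.κ k).1 b))).coeff g := by
      intro b
      rw [hL1]
      simp only [hcs, Finset.mul_sum]
      rw [Finset.sum_comm]
      exact Finset.sum_congr rfl fun k _ => adjoint _ _ _ _ _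
    rw [Finset.sum_congr rfl fun b _ => h1 b, Finset.sum_comm]
    refine Finset.sum_eq_zero fun k _ => ?_
    rw [Finset.sum_comm]
    refine Finset.sum_eq_zero fun g _ => ?_
    rw [← Finset.mul_sum, ← hcs', (hO v).1 hv k]
    exact mul_zero _
  let Inn : MonoidAlgebra (ZMod 2) Γ →+ (Fin m → MonoidAlgebra (ZMod 2) Γ) :=
    AddMonoidHom.mk' (fun v b => aD w i (h b) v - v) (fun v v' => by
      funext b
      change aD w i (h b) (v + v') - (v + v') = (aD w i (h b) v - v) + (aD w i (h b) v' - v')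
      rw [map_add]
      abel)
  have hInn : ∀ v b, Inn v b = aD w i (h b) v - v := fun _ _ => rfl
  -- cocycles
  have hcI : ∀ a j, (fun z => phi i a (ut w S y j z)) ∈ Ind w i := fun a j => phi_mem i a y j
  have hce : ∀ a : Fin B.N → MonoidAlgebra (ZMod 2) Γ,
      mv e1 (fun j z => phi i a (ut w S y j z)) = fun j z => phi i a (ut w S y j z) := by
    intro a
    rw [mv_nat, mv_ut]
    funext j z
    unfold ut
    simp only [hy1]
  have hzero : ∀ a, L1 a = 0 → ∀ b, ∑ k, a k * i ((B.κ k).1 b) = 0 := fun a ha b =>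
    congrFun ha b
  have hL2O : ∀ a, L1 a = 0 → L2 a ∈ O := by
    intro a ha k
    have h1 := deriv_rel hF.low (t := fun b => t (h b : G)) (fun b => ht _)
      (fun j => (hcI a j).1) (hce a) (hpk i a (hzero a ha)).1 (B.κ k)
    rw [← h1]
    exact Finset.sum_congr rfl fun b _ => by rw [hL2, evb_nat]
  have hInnO : ∀ v, Inn v ∈ O := fun v k => inner_rel i v (B.κ k)
  -- the two homomorphisms
  let g1 : PA →+ (Fin m → MonoidAlgebra (ZMod 2) Γ) := L1.comp PA.subtype
  let g2 : (g1.ker × MonoidAlgebra (ZMod 2) Γ) →+ (Fin m → MonoidAlgebra (ZMod 2) Γ) :=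
    ((L2.comp PA.subtype).comp g1.ker.subtype).coprod (-Inn)
  have hg2 : ∀ x, g2 x = L2 x.1.1.1 - Inn x.2 := by
    intro x
    rw [sub_eq_add_neg]
    rfl
  have c1 : Nat.card PA ≤ Nat.card g1.ker * Nat.card L1.range :=
    card_hom_le g1 L1.range fun a => ⟨a.1, rfl⟩
  have c2 : Nat.card (g1.ker × MonoidAlgebra (ZMod 2) Γ) ≤ Nat.card g2.ker * Nat.card O := by
    refine card_hom_le g2 O fun x => ?_
    rw [hg2]
    exact O.sub_mem (hL2O _ x.1.2) (hInnO _)
  have c3 := card_orth O L1.range hOR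
  -- the values at infinity
  have hβ : ∀ x : g2.ker, ∃ β : Fin n → (G → MonoidAlgebra (ZMod 2) Γ),
      (∀ j, β j ∈ EqS S (aD w i)) ∧ mv e0 β = β ∧
      mv d0 β = fun j z => phi i x.1.1.1.1 (ut w S y j z) := by
    intro x
    have hx0 : L1 x.1.1.1.1 = 0 := x.1.1.2
    have hx := (hg2 x.1).symm.trans x.2
    rw [sub_eq_zero] at hx
    refine cobound' hF.low (isAct_aD i) h hgen hε hu hεu hεd hεex (t := fun b => t (h b : G))
      (fun b => ht _) (fun j => (hcI _ j).1) (hce _) (hpk i _ (hzero _ hx0)).1 x.1.2 fun b => ?_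
    rw [evb_nat, ← hL2, hx]
    exact hInn _ _
  choose β hβ1 hβ2 hβ3 using hβ
  have hfE : ∀ x, evf (β x) u ∈ EqS S (aD w i) :=
    fun x => evf_mem (stable_EqS _ _) (hβ1 x) u
  have hfc : ∀ x, ∀ g ∈ T, ∀ z, qS S z ∉ (⋃ g ∈ (T : Set G), Fg g) →
      evf (β x) u (z * g) = evf (β x) u z := by
    intro x g hg z hz
    have h1 : tr (MonoidAlgebra (ZMod 2) Γ) g (evf (β x) u) - evf (β x) u =
        evf (mv d0 (β x)) (t g) := by
      rw [← evf_vecMul, ht, evf_sub, evf_smul, rho_of]
    rw [hβ3, evf_nat] at h1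
    have h2 := congrFun h1 z
    rw [Pi.sub_apply, tr_apply] at h2
    have h3 : evf (ut w S y) (t g) z = 0 := by
      by_contra h3
      exact hz (Set.mem_biUnion hg (hFg' g z h3))
    rw [h3, map_zero, sub_eq_zero] at h2
    exact h2
  let Θ : g2.ker → (∀ q : L, {v : MonoidAlgebra (ZMod 2) Γ // aD w i q.1.2 v = v}) × ZMod 2 :=
    fun x => (fun q => ⟨evf (β x) u q.1.1, (hLf (hfE x) (hfc x)).1 q.1 q.2⟩, x.1.2.coeff 1)
  have hΘ : Function.Injective Θ := by
    intro x x' hxx
    have hval : ∀ q ∈ L, evf (β x) u q.1 = evf (β x') u q.1 := fun q hq =>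
      congrArg Subtype.val (congrFun (congrArg Prod.fst hxx) ⟨q, hq⟩)
    let β' : Fin n → (G → MonoidAlgebra (ZMod 2) Γ) := β x - β x'
    have hev : ∀ v, evf β' v = evf (β x) v - evf (β x') v := by
      intro v
      unfold evf
      rw [← Finset.sum_sub_distrib]
      exact Finset.sum_congr rfl fun j _ => map_sub _ _ _
    set a := x.1.1.1.1 with ha
    set a' := x'.1.1.1.1 with ha'
    have hβ'3 : mv d0 β' = fun j z => phi i (a - a') (ut w S y j z) := by
      change mv d0 (β x - β x') = _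
      rw [mv_sub, hβ3, hβ3]
      funext j z
      change phi i a _ - phi i a' _ = phi i (a - a') _
      simp only [phi_apply, Pi.sub_apply, sub_mul, Finset.sum_sub_distrib]
    have hβ'2 : mv e0 β' = β' := by
      change mv e0 (β x - β x') = β x - β x'
      rw [mv_sub, hβ2, hβ2]
    have hfE' : evf β' u ∈ EqS S (aD w i) := by
      rw [hev]
      exact Submodule.sub_mem _ (hfE x) (hfE x')
    have hfc' : ∀ g ∈ T, ∀ z, qS S z ∉ (⋃ g ∈ (T : Set G), Fg g) →
        evf β' u (z * g) = evf β' u z := by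
      intro g hg z hz
      rw [hev, Pi.sub_apply, Pi.sub_apply, hfc x g hg z hz, hfc x' g hg z hz]
    have hfI : evf β' u ∈ Ind w i := by
      refine ⟨hfE', (hLf hfE' hfc').2 fun q hq => ?_⟩
      rw [hev, Pi.sub_apply, hval q hq, sub_self]
    have hL1d : L1 (a - a') = 0 := by
      rw [map_sub]
      have h1 : L1 a = 0 := x.1.1.2
      have h2 : L1 a' = 0 := x'.1.1.2
      rw [h1, h2, sub_zero]
    have hd : ∀ j, mv d0 β' j ∈ Ind w i := fun j => by
      rw [hβ'3]
      exact phi_mem _ _ _ _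
    have h3 := (hpk i (a - a') (hzero _ hL1d)).2 β'
      (mem_ind hF.low i hu hεu hεex hβ'2 hd hfI) hβ'3
    have h4 : a - a' = 0 := by
      funext j
      have h5 : a - a' ∈ PA := PA.sub_mem x.1.1.1.2 x'.1.1.1.2
      rw [← (hPA _).1 h5 j]
      exact h3 (B.φ j)
    have haa : a = a' := sub_eq_zero.1 h4
    -- the inner part
    have hx := (hg2 x.1).symm.trans x.2
    have hx' := (hg2 x'.1).symm.trans x'.2
    rw [sub_eq_zero] at hx hx'
    have h6 : Inn x.1.2 = Inn x'.1.2 := by
      rw [← hx, ← hx']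
      exact congrArg L2 haa
    have h7 : ∀ b, aD w i (h b) (x.1.2 - x'.1.2) = x.1.2 - x'.1.2 := by
      intro b
      have h8 := congrFun h6 b
      rw [hInn, hInn, sub_eq_sub_iff_sub_eq_sub] at h8
      rw [map_sub]
      exact h8
    have h9 : x.1.2 = x'.1.2 := by
      apply MonoidAlgebra.coeff_injective
      ext g
      have h10 := fixed_const f hfs hgen h7 g
      change x.1.2.coeff g - x'.1.2.coeff g = x.1.2.coeff 1 - x'.1.2.coeff 1 at h10
      have h11 : x.1.2.coeff 1 = x'.1.2.coeff 1 := congrArg Prod.snd hxx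
      rw [h11, sub_self, sub_eq_zero] at h10
      exact h10
    apply Subtype.ext
    exact Prod.ext (Subtype.ext (Subtype.ext haa)) h9
  have c4 := Nat.card_le_card_of_injective Θ hΘ
  rw [Nat.card_prod, Nat.card_pi, Nat.card_eq_fintype_card (α := ZMod 2), ZMod.card] at c4
  have c5 : ∏ q : L, Nat.card {v : MonoidAlgebra (ZMod 2) Γ // aD w i q.1.2 v = v} ≤
      ∏ q : L, 2 ^ Nat.card (Γ ⧸ Subgroup.zpowers (f (⟨q.1.2, (hL q.1 q.2).1⟩ : S))) :=
    Finset.prod_le_prod' fun q _ => card_fix f (hL q.1 q.2).1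
  rw [Finset.prod_pow_eq_pow_sum] at c5
  -- arithmetic
  set e := ∑ q : L, Nat.card (Γ ⧸ Subgroup.zpowers (f (⟨q.1.2, (hL q.1 q.2).1⟩ : S))) with he
  have c6 : Nat.card g2.ker ≤ 2 ^ (e + 1) := by
    rw [pow_succ]
    exact c4.trans (Nat.mul_le_mul_right _ c5)
  have cA : Nat.card (MonoidAlgebra (ZMod 2) Γ) = 2 ^ Fintype.card Γ := by
    rw [card_alg, Nat.card_eq_fintype_card]
  have cAm : Nat.card (Fin m → MonoidAlgebra (ZMod 2) Γ) = 2 ^ (Fintype.card Γ * m) := by
    rw [Nat.card_fun, Nat.card_fin, cA, ← pow_mul]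
  rw [Nat.card_prod, cA] at c2
  rw [cAm] at c3
  have c7 : 2 ^ (Fintype.card Γ * r) * 2 ^ Fintype.card Γ ≤
      2 ^ (e + 1) * 2 ^ (Fintype.card Γ * m) := by
    calc 2 ^ (Fintype.card Γ * r) * 2 ^ Fintype.card Γ
        ≤ (Nat.card g1.ker * Nat.card L1.range) * 2 ^ Fintype.card Γ :=
          Nat.mul_le_mul_right _ (hcard.trans c1)
      _ = (Nat.card g1.ker * 2 ^ Fintype.card Γ) * Nat.card L1.range := by ring
      _ ≤ (Nat.card g2.ker * Nat.card O) * Nat.card L1.range := Nat.mul_le_mul_right _ c2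
      _ = Nat.card g2.ker * (Nat.card O * Nat.card L1.range) := by ring
      _ ≤ 2 ^ (e + 1) * 2 ^ (Fintype.card Γ * m) := Nat.mul_le_mul c6 c3
  rw [← pow_add, ← pow_add] at c7
  have c8 := (Nat.pow_le_pow_iff_right one_lt_two).1 c7
  have c9 : Fintype.card Γ * m ≤ Fintype.card Γ * r := Nat.mul_le_mul_left _ hrm
  have c10 : Fintype.card Γ ≤ e + 1 := by omega
  have h6 : ∀ q : L, (2 * R + 2) *
      Nat.card (Γ ⧸ Subgroup.zpowers (f (⟨q.1.2, (hL q.1 q.2).1⟩ : S))) ≤ Fintype.card Γ := by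
    intro q
    rw [← Nat.card_eq_fintype_card, Subgroup.card_eq_card_quotient_mul_card_subgroup
      (Subgroup.zpowers (f (⟨q.1.2, (hL q.1 q.2).1⟩ : S))), mul_comm, Nat.card_zpowers]
    refine Nat.mul_le_mul_left _ ?_
    by_contra hlt
    rw [not_le] at hlt
    have hpos : 0 < orderOf (f (⟨q.1.2, (hL q.1 q.2).1⟩ : S)) := orderOf_pos _
    refine hf' q.1 q.2 (orderOf (f (⟨q.1.2, (hL q.1 q.2).1⟩ : S)) - 1) (by omega) ?_
    rw [Nat.sub_add_cancel hpos]
    exact pow_orderOf_eq_one _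
  have h7 : (2 * R + 2) * e ≤ R * Fintype.card Γ := by
    rw [he, Finset.mul_sum]
    refine (Finset.sum_le_sum fun q _ => h6 q).trans ?_
    rw [Finset.sum_const, smul_eq_mul, Finset.card_univ, Fintype.card_coe]
  have h8 : (2 * R + 2) * Fintype.card Γ ≤ R * Fintype.card Γ + (2 * R + 2) :=
    (Nat.mul_le_mul_left _ c10).trans (by rw [mul_add, mul_one]; omega)
  nlinarith

end

end Pool.Agent.H26.PD.PX
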