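import Pool.Agent.H26.PX.Swan
import Pool.Agent.H26.PK.Count

/-!
The number of fixed vectors of an idempotent matrix over the mod `p` group algebra of a finite
quotient.
-/

set_option autoImplicit false
set_option linter.unusedSectionVars false

namespace Pool.Agent.H26.PD.PX

open Pool.Agent.Helper386.PD3 Pool.Agent.H26.PD.PN Pool.Agent.H26.PD.PK
open scoped Classical Matrix

noncomputable section

variable {Γ : Type} [Group Γ] [Fintype Γ]

theorem coeff_gof (g y : Γ) : (gof g : RR Γ).coeff y = if g = y then 1 else 0 := by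
  change (MonoidAlgebra.single g (1 : ℤ)).coeff y = _
  rw [MonoidAlgebra.coeff_single, Finsupp.single_apply]

theorem coeff_mul' (a b : RR Γ) (g : Γ) : (a * b).coeff g = ∑ y, a.coeff y * b.coeff (y⁻¹ * g) := by
  induction b using rr_ind with
  | h1 h =>
    change (a * MonoidAlgebra.single h (1 : ℤ)).coeff g = _
    rw [MonoidAlgebra.coeff_mul_single_apply, mul_one, Finset.sum_eq_single (g * h⁻¹)]
    · rw [coeff_gof, if_pos (by group), mul_one]
    · intro y _ hy
      rw [coeff_gof, if_neg, mul_zero]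
      intro h1
      apply hy
      rw [h1]
      group
    · intro h1
      exact absurd (Finset.mem_univ _) h1
  | h2 x y hx hy =>
    rw [mul_add]
    change (a * x).coeff g + (a * y).coeff g = _
    rw [hx, hy, ← Finset.sum_add_distrib]
    exact Finset.sum_congr rfl fun z _ => (mul_add _ _ _).symm
  | h3 x hx =>
    rw [mul_neg]
    change -(a * x).coeff g = _
    rw [hx, ← Finset.sum_neg_distrib]
    exact Finset.sum_congr rfl fun z _ => (mul_neg _ _).symm

variable {p : ℕ} [hp : Fact p.Prime] {T : Type} [Group T]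

theorem coeff_mul_lvl (f : T →* Γ) (a : MonoidAlgebra (ZMod p) Γ) (r : RR T) (g : Γ) :
    (a * lvl p f r).coeff g = ∑ h, (((pf f r).coeff (h⁻¹ * g) : ℤ) : ZMod p) * a.coeff h := by
  induction r using rr_ind with
  | h1 s =>
    rw [lvl_of, MonoidAlgebra.coeff_mul_single_apply, mul_one, pf_of,
      Finset.sum_eq_single (g * (f s)⁻¹)]
    · rw [coeff_gof, if_pos (by group), Int.cast_one, one_mul]
    · intro y _ hy
      rw [coeff_gof, if_neg, Int.cast_zero, zero_mul]
      intro h1
      apply hy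
      rw [h1]
      group
    · intro h1
      exact absurd (Finset.mem_univ _) h1
  | h2 x y hx hy =>
    rw [map_add, mul_add, map_add]
    change (a * lvl p f x).coeff g + (a * lvl p f y).coeff g = _
    rw [hx, hy, ← Finset.sum_add_distrib]
    refine Finset.sum_congr rfl fun z _ => ?_
    change _ = (((pf f x).coeff (z⁻¹ * g) + (pf f y).coeff (z⁻¹ * g) : ℤ) : ZMod p) * _
    rw [Int.cast_add, add_mul]
  | h3 x hx =>
    rw [map_neg, mul_neg, map_neg]
    change -(a * lvl p f x).coeff g = _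
    rw [hx, ← Finset.sum_neg_distrib]
    refine Finset.sum_congr rfl fun z _ => ?_
    change _ = ((-(pf f x).coeff (z⁻¹ * g) : ℤ) : ZMod p) * _
    rw [Int.cast_neg, neg_mul]

variable {N : ℕ}

/-- the matrix of the right multiplication by a matrix -/
def KM (E : Matrix (Fin N) (Fin N) (RR Γ)) : Matrix (Fin N × Γ) (Fin N × Γ) ℤ :=
  fun a b => (E b.1 a.1).coeff (b.2⁻¹ * a.2)

theorem KM_apply (E : Matrix (Fin N) (Fin N) (RR Γ)) (a b : Fin N × Γ) :
    KM E a b = (E b.1 a.1).coeff (b.2⁻¹ * a.2) := rfl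

theorem coeff_sum' {ι : Type} (s : Finset ι) (a : ι → RR Γ) (g : Γ) :
    (∑ k ∈ s, a k).coeff g = ∑ k ∈ s, (a k).coeff g := by
  induction s using Finset.induction_on with
  | empty => rfl
  | insert b s hb ih =>
    rw [Finset.sum_insert hb, Finset.sum_insert hb, ← ih]
    rfl

theorem KM_idem {E : Matrix (Fin N) (Fin N) (RR Γ)} (hE : E * E = E) : KM E * KM E = KM E := by
  ext ⟨j, g⟩ ⟨l, h⟩
  rw [Matrix.mul_apply, Fintype.sum_prod_type]
  simp only [KM_apply]
  have h1 : ∀ k, ∑ x : Γ, (E k j).coeff (x⁻¹ * g) * (E l k).coeff (h⁻¹ * x) =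
      (E l k * E k j).coeff (h⁻¹ * g) := by
    intro k
    rw [coeff_mul', ← Equiv.sum_comp (Equiv.mulLeft h⁻¹)
      (fun y => (E l k).coeff y * (E k j).coeff (y⁻¹ * (h⁻¹ * g)))]
    refine Finset.sum_congr rfl fun x _ => ?_
    change _ = (E l k).coeff (h⁻¹ * x) * (E k j).coeff ((h⁻¹ * x)⁻¹ * (h⁻¹ * g))
    rw [mul_comm]
    congr 2
    group
  rw [Finset.sum_congr rfl fun k _ => h1 k, ← coeff_sum']
  conv_rhs => rw [← hE, Matrix.mul_apply]

theorem KM_trace (E : Matrix (Fin N) (Fin N) (RR Γ)) :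
    (KM E).trace = (Fintype.card Γ : ℤ) * ∑ i, (E i i).coeff 1 := by
  change ∑ a : Fin N × Γ, (E a.1 a.1).coeff (a.2⁻¹ * a.2) = _
  rw [Fintype.sum_prod_type, Finset.mul_sum]
  refine Finset.sum_congr rfl fun i _ => ?_
  simp only [inv_mul_cancel]
  rw [Finset.sum_const, Finset.card_univ, nsmul_eq_mul]

/-- **The number of fixed vectors.** -/
theorem card_fixed (f : T →* Γ) {E : Matrix (Fin N) (Fin N) (RR T)} (hE : E * E = E) :
    ∃ r : ℕ, (r : ℤ) = ∑ i, eps (E i i) ∧ p ^ (Fintype.card Γ * r) ≤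
      Nat.card {a : Fin N → MonoidAlgebra (ZMod p) Γ // ∀ j, ∑ l, a l * lvl p f (E l j) = a j} := by
  let E' : Matrix (Fin N) (Fin N) (RR Γ) := E.map (pf f)
  have hE' : E' * E' = E' := by
    have h1 : (E * E).map (pf f) = E.map (pf f) * E.map (pf f) := Matrix.map_mul
    change E.map (pf f) * E.map (pf f) = E.map (pf f)
    rw [← h1, hE]
  have hE'a : ∀ i j, E' i j = pf f (E i j) := fun _ _ => rfl
  have htr : (KM E').trace = (Fintype.card Γ : ℤ) * ∑ i, eps (E i i) := by
    rw [KM_trace, swan' hE']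
    congr 1
    exact Finset.sum_congr rfl fun i _ => by rw [hE'a, eps_pf]
  have hrk := rank_red p (KM E') (KM_idem hE')
  have hnn : 0 ≤ ∑ i, eps (E i i) := by
    by_contra h
    push Not at h
    have h1 : (Fintype.card Γ : ℤ) * ∑ i, eps (E i i) < 0 :=
      mul_neg_of_pos_of_neg (by exact_mod_cast Fintype.card_pos) h
    rw [← htr, ← hrk] at h1
    omega
  obtain ⟨r, hr⟩ := Int.eq_ofNat_of_zero_le hnn
  refine ⟨r, hr.symm, ?_⟩
  have hrk' : (red p (KM E')).rank = Fintype.card Γ * r := by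
    rw [htr, hr] at hrk
    exact_mod_cast hrk
  rw [← hrk', ← card_range p]
  have hKK : ∀ v, Matrix.mulVecLin (red p (KM E')) (Matrix.mulVecLin (red p (KM E')) v) =
      Matrix.mulVecLin (red p (KM E')) v := by
    intro v
    have h3 : red p (KM E' * KM E') = red p (KM E') * red p (KM E') := Matrix.map_mul
    rw [← LinearMap.comp_apply, ← Matrix.mulVecLin_mul, ← h3, KM_idem hE']
  have hfix : ∀ v ∈ LinearMap.range (Matrix.mulVecLin (red p (KM E'))),
      ∀ (j : Fin N) (g : Γ), ∑ l, ∑ h, (((E' l j).coeff (h⁻¹ * g) : ℤ) : ZMod p) * v (l, h) =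
        v (j, g) := by
    rintro _ ⟨v, rfl⟩ j g
    have h1 := congrFun (hKK v) (j, g)
    conv_rhs => rw [← h1]
    change _ = ∑ b : Fin N × Γ, _
    rw [Fintype.sum_prod_type]
    rfl
  let mk : (Γ → ZMod p) → MonoidAlgebra (ZMod p) Γ := fun v => ⟨Finsupp.equivFunOnFinite.symm v⟩
  have hmk : ∀ v g, (mk v).coeff g = v g := fun _ _ => rfl
  refine Nat.card_le_card_of_injective
    (fun v : LinearMap.range (Matrix.mulVecLin (red p (KM E'))) =>
      (⟨fun l => mk fun h => v.1 (l, h), fun j => ?_⟩ :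
        {a : Fin N → MonoidAlgebra (ZMod p) Γ // ∀ j, ∑ l, a l * lvl p f (E l j) = a j})) ?_
  · apply MonoidAlgebra.coeff_injective
    ext g
    rw [hmk, ← hfix v.1 v.2 j g]
    have h2 : ∀ s : Finset (Fin N), (∑ l ∈ s, mk (fun h => v.1 (l, h)) * lvl p f (E l j)).coeff g =
        ∑ l ∈ s, (mk (fun h => v.1 (l, h)) * lvl p f (E l j)).coeff g := by
      intro s
      induction s using Finset.induction_on with
      | empty => rfl
      | insert b s hb ih =>
        rw [Finset.sum_insert hb, Finset.sum_insert hb, ← ih]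
        rfl
    rw [h2]
    exact Finset.sum_congr rfl fun l _ => coeff_mul_lvl f _ _ _
  · intro v v' h
    apply Subtype.ext
    funext ⟨l, h'⟩
    have h1 := congrFun (congrArg Subtype.val h) l
    have h2 := congrArg (fun a : MonoidAlgebra (ZMod p) Γ => a.coeff h') h1
    exact h2

end

end Pool.Agent.H26.PD.PX
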