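import Pool.Agent.H26.PK.ResMain
import Pool.Agent.H26.PS.Alg2
import Pool.Agent.H26.PX.Reg

/-!
Cocycles whose restriction to the subgroup is an inner derivation; the adjointness relation modulo
two.
-/

set_option autoImplicit false
set_option linter.unusedSectionVars false

namespace Pool.Agent.H26.PD.PX

open Pool.Agent.Helper386.PD3 Pool.Agent.H26.PD.PN Pool.Agent.H26.PD.PK Pool.Agent.H26.PD.PS
open scoped Classical Matrix

noncomputable section

variable {G : Type} [Group G] {S : Subgroup G} {n m : ℕ} {w : G →* ℤˣ}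
  {e0 e1 e2 e3 d0 d1 d2 : MR G n}

/-- a cocycle vanishes on cycles -/
theorem evb_cycle (hL : Low e0 e1 e2 d0 d1) {M : Type} [AddCommGroup M] {c : Fin n → (G → M)}
    (he : mv e1 c = c) (hd : mv d1 c = 0) {y : Fin n → RR G} (hy : y ᵥ* d0 = 0) :
    evb c y = 0 := by
  obtain ⟨u', hu'⟩ := hL.ex1 (y ᵥ* e1) (by rw [vm_vm, hL.ee1]) (by rw [vm_vm, hL.e1d0, hy])
  have h2 : evb c y = evb c (y ᵥ* e1) := by rw [evb_vecMul, he]
  rw [h2, ← hu', evb_vecMul, hd, evb_apply]
  simp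

theorem evb_wd (hL : Low e0 e1 e2 d0 d1) {M : Type} [AddCommGroup M] {c : Fin n → (G → M)}
    (he : mv e1 c = c) (hd : mv d1 c = 0) {y y' : Fin n → RR G} (hy : y ᵥ* d0 = y' ᵥ* d0) :
    evb c y = evb c y' := by
  rw [← sub_eq_zero, ← map_sub]
  exact evb_cycle hL he hd (by rw [Matrix.sub_vecMul, hy, sub_self])

/-- a cocycle whose restriction to the subgroup is inner is a coboundary -/
theorem cobound' (hL : Low e0 e1 e2 d0 d1) {M : Type} [AddCommGroup M] {a : G → Module.End ℤ M}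
    (ha : IsAct S a) (h : Fin m → S) (hgen : Subgroup.closure (Set.range h) = ⊤)
    {u : Fin n → RR G} {ε : (Fin n → RR G) →+ ℤ}
    (hε : ∀ (g : G) (v : Fin n → RR G), ε (gof g • v) = ε v) (hu : u ᵥ* e0 = u) (hεu : ε u = 1)
    (hεd : ∀ v, ε (v ᵥ* d0) = 0) (hεex : ∀ u, u ᵥ* e0 = u → ε u = 0 → ∃ v, v ᵥ* d0 = u)
    {t : Fin m → (Fin n → RR G)} (ht : ∀ b, t b ᵥ* d0 = gof (h b : G) • u - u)
    {c : Fin n → (G → M)} (hc : ∀ j, c j ∈ EqS S a) (he : mv e1 c = c) (hd : mv d1 c = 0)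
    (v0 : M) (h0 : ∀ b, evb c (t b) = a (h b) v0 - v0) :
    ∃ β : Fin n → (G → M), (∀ j, β j ∈ EqS S a) ∧ mv e0 β = β ∧ mv d0 β = c := by
  have hwd : ∀ y y', y ᵥ* d0 = y' ᵥ* d0 → evb c y = evb c y' :=
    fun y y' hy => evb_wd hL he hd hy
  let A0 : RR S →+ M := af S (fun s => a s v0)
  have hA0 : ∀ s : S, A0 (gof s) = a s v0 := fun s => af_gof _ s
  have hA0m : ∀ (s : S) r, A0 (gof s * r) = a s (A0 r) := by
    intro s r
    induction r using rr_ind with
    | h1 g =>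
      rw [← gof_mul, hA0, hA0, Subgroup.coe_mul, ha.2 s s.2 g g.2]
      rfl
    | h2 x y hx hy => rw [mul_add, map_add, map_add, map_add, hx, hy]
    | h3 x hx => rw [mul_neg, map_neg, map_neg, map_neg, hx]
  obtain ⟨ψ, hψ1, hψ2⟩ := exists_psi (N := S) hε
  have hψ : ∀ (r : RR S) y, ψ (inc S r • y) = r • ψ y :=
    lin_of_equiv (fun g hg v => by rw [hψ1 g hg, aM_apply S _ hg])
  have hψg : ∀ g (hg : g ∈ S) y, ψ (gof g • y) = gof ⟨g, hg⟩ * ψ y := by
    intro g hg y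
    have h1 := hψ (gof ⟨g, hg⟩) y
    rwa [inc_of, smul_eq_mul] at h1
  have hz : ∀ v, ∃ z, z ᵥ* d0 = v ᵥ* e0 - inc S (ψ (v ᵥ* e0)) • u := by
    intro v
    refine hεex _ ?_ ?_
    · rw [Matrix.sub_vecMul, vm_vm, hL.ee0, smul_vm, hu]
    · rw [map_sub, eps_eq hε, eps_inc, hψ2, hεu, mul_one, sub_self]
  choose z hz using hz
  have hzadd : ∀ v v', evb c (z (v + v')) + A0 (ψ ((v + v') ᵥ* e0)) =
      (evb c (z v) + A0 (ψ (v ᵥ* e0))) + (evb c (z v') + A0 (ψ (v' ᵥ* e0))) := by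
    intro v v'
    have h1 : evb c (z (v + v')) = evb c (z v) + evb c (z v') := by
      rw [← map_add]
      refine hwd _ _ ?_
      rw [Matrix.add_vecMul, hz, hz, hz, Matrix.add_vecMul, map_add, map_add, add_smul]
      abel
    rw [h1, Matrix.add_vecMul, map_add, map_add]
    abel
  obtain ⟨Z, hZ⟩ : ∃ Z : (Fin n → RR G) →+ M, ∀ v, Z v = evb c (z v) + A0 (ψ (v ᵥ* e0)) :=
    ⟨AddMonoidHom.mk' (fun v => evb c (z v) + A0 (ψ (v ᵥ* e0))) hzadd, fun _ => rfl⟩
  have hZe : ∀ g ∈ S, ∀ v, Z (gof g • v) = a g (Z v) := by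
    intro g hg v
    rw [hZ, hZ, map_add, ← evb_equiv hc hg]
    congr 1
    · refine hwd _ _ ?_
      rw [smul_vm, hz, hz, smul_vm, smul_sub]
      congr 1
      have h1 : gof g • (v ᵥ* e0) = inc S (gof ⟨g, hg⟩) • (v ᵥ* e0) := by rw [inc_of]
      rw [h1, hψ, smul_eq_mul, map_mul, inc_of, mul_smul]
    · rw [smul_vm, hψg g hg, hA0m]
  obtain ⟨β, hβ0⟩ : ∃ β : Fin n → (G → M), ∀ j x, β j x = Z (gof x • Pi.single j (1 : RR G)) :=
    ⟨fun j x => Z (gof x • Pi.single j (1 : RR G)), fun _ _ => rfl⟩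
  have hβ : ∀ v, evb β v = Z v := by
    intro v
    exact hom_ext (F := evb β) (F' := Z) (fun x j => (evb_single β x j).trans (hβ0 j x)) v
  have hmv : ∀ (A : MR G n) (b : Fin n → (G → M)) i x, mv A b i x =
      evb b ((gof x • Pi.single i (1 : RR G)) ᵥ* A) := by
    intro A b i x
    rw [evb_vecMul, evb_single]
  refine ⟨β, ?_, ?_, ?_⟩
  · intro j g hg x
    rw [hβ0, hβ0, gof_mul, mul_smul, hZe g hg]
  · funext i x
    rw [hmv, hβ, hβ0, hZ, hZ, vm_vm, hL.ee0]
    congr 1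
    refine hwd _ _ ?_
    rw [hz, hz, vm_vm, hL.ee0]
  · funext i x
    rw [hmv, hβ, hZ, ← evb_single c]
    generalize gof x • (Pi.single i (1 : RR G) : Fin n → RR G) = y
    have hev0 : ∀ b (r : RR S), evb c (inc S r • t b) = A0 (r * (gof (h b) - 1)) := by
      intro b r
      induction r using rr_ind with
      | h1 g =>
        rw [inc_of, evb_equiv hc g.2, h0, mul_sub, mul_one, ← gof_mul, map_sub, map_sub, hA0, hA0,
          Subgroup.coe_mul, ha.2 g g.2 (h b) (h b).2]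
        rfl
      | h2 x y hx hy => rw [map_add, add_smul, map_add, hx, hy, add_mul, map_add]
      | h3 x hx => rw [map_neg, neg_smul, map_neg, hx, neg_mul, map_neg]
    obtain ⟨η, hη⟩ := bd_surj' h hgen (r := ψ (y ᵥ* d0)) (by rw [hψ2, hεd])
    have h1 : (∑ b, inc S (η b) • t b) ᵥ* d0 = inc S (ψ (y ᵥ* d0)) • u := by
      rw [← hη, bd_apply, map_sum, Finset.sum_smul, Matrix.sum_vecMul]
      refine Finset.sum_congr rfl fun b _ => ?_
      rw [smul_vm, ht, map_mul, map_sub, inc_of, map_one, mul_smul, sub_smul, one_smul]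
    have h2 : evb c (∑ b, inc S (η b) • t b) = A0 (ψ (y ᵥ* d0)) := by
      rw [map_sum, ← hη, bd_apply, map_sum]
      exact Finset.sum_congr rfl fun b _ => hev0 b _
    have h3 : evb c (z (y ᵥ* d0)) = evb c (y - ∑ b, inc S (η b) • t b) := by
      refine hwd _ _ ?_
      rw [hz, Matrix.sub_vecMul, h1, vm_vm, hL.d0e0]
    rw [h3, map_sub, h2, vm_vm, hL.d0e0]
    abel

/-- equivariance over the group ring -/
theorem evb_inc {D : Type} [Ring D] {i : RR S →+* D} {c : Fin n → (G → D)}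
    (hc : ∀ j, c j ∈ EqS S (aD w i)) (r : RR S) (v : Fin n → RR G) :
    evb c (inc S r • v) = evb c v * i (dg (w.comp S.subtype) r) := by
  induction r using rr_ind with
  | h1 g =>
    rw [inc_of, evb_equiv hc g.2, aD_apply i g.2]
  | h2 x y hx hy => rw [map_add, add_smul, map_add, hx, hy, dg_add, map_add, mul_add]
  | h3 x hx => rw [map_neg, neg_smul, map_neg, hx, dg_neg, map_neg, mul_neg]

/-- the values of a cocycle on the generators form a derivation -/
theorem deriv_rel (hL : Low e0 e1 e2 d0 d1) {D : Type} [Ring D] {i : RR S →+* D}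
    {h : Fin m → S} {u : Fin n → RR G}
    {t : Fin m → (Fin n → RR G)} (ht : ∀ b, t b ᵥ* d0 = gof (h b : G) • u - u)
    {c : Fin n → (G → D)} (hc : ∀ j, c j ∈ EqS S (aD w i)) (he : mv e1 c = c)
    (hd : mv d1 c = 0) (x : LinearMap.ker (bd h)) :
    ∑ b, evb c (t b) * i (dg (w.comp S.subtype) (x.1 b)) = 0 := by
  have h1 : evb c (∑ b, inc S (x.1 b) • t b) = 0 := by
    refine evb_cycle hL he hd ?_
    rw [Matrix.sum_vecMul]
    have h2 : ∀ b, (inc S (x.1 b) • t b) ᵥ* d0 = inc S (x.1 b * (gof (h b) - 1)) • u := by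
      intro b
      rw [smul_vm, ht, map_mul, map_sub, inc_of, map_one, mul_smul, sub_smul, one_smul]
    have h3 : ∑ b, x.1 b * (gof (h b) - 1) = 0 := x.2
    rw [Finset.sum_congr rfl fun b _ => h2 b, ← Finset.sum_smul, ← map_sum, h3, map_zero,
      zero_smul]
  rw [map_sum] at h1
  rw [← h1]
  exact Finset.sum_congr rfl fun b _ => (evb_inc hc _ _).symm

/-- inner derivations satisfy the relations -/
theorem inner_rel {D : Type} [Ring D] (i : RR S →+* D) {h : Fin m → S} (v0 : D)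
    (x : LinearMap.ker (bd h)) :
    ∑ b, (aD w i (h b) v0 - v0) * i (dg (w.comp S.subtype) (x.1 b)) = 0 := by
  have h1 : ∀ b, (aD w i (h b) v0 - v0) * i (dg (w.comp S.subtype) (x.1 b)) =
      v0 * i (dg (w.comp S.subtype) (x.1 b * (gof (h b) - 1))) := by
    intro b
    rw [aD_apply i (h b).2, dg_mul, map_mul, ← mul_assoc]
    congr 1
    have h2 : dg (w.comp S.subtype) (gof (h b) - 1 : RR S) =
        dg (w.comp S.subtype) (gof (h b)) - 1 := by
      rw [sub_eq_add_neg, dg_add, dg_neg, dg_one, sub_eq_add_neg]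
    rw [h2, map_sub, map_one, mul_sub, mul_one]
  have h3 : ∑ b, x.1 b * (gof (h b) - 1) = 0 := x.2
  rw [Finset.sum_congr rfl fun b _ => h1 b, ← Finset.mul_sum, ← map_sum, ← dg_sum', h3, dg_zero,
    map_zero, mul_zero]

/-! ## The adjointness relation -/

variable {Γ : Type} [Group Γ] [Fintype Γ]

theorem coeff_dg {T : Type} [Group T] (w : T →* ℤˣ) (f : T →* Γ) (r : RR T) (y : Γ) :
    (((pf f (dg w r)).coeff y : ℤ) : ZMod 2) = (((pf f r).coeff y⁻¹ : ℤ) : ZMod 2) := by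
  induction r using rr_ind with
  | h1 s =>
    rw [dg_of, map_zsmul, pf_of, pf_of, map_inv]
    change (((((w s : ℤˣ) : ℤ) • (gof (f s)⁻¹ : RR Γ).coeff y : ℤ)) : ZMod 2) = _
    rw [coeff_gof, coeff_gof]
    have h1 : (((w s : ℤˣ) : ℤ) : ZMod 2) = 1 := by
      rcases Int.units_eq_one_or (w s) with h | h
      · rw [h]; rfl
      · rw [h]; rfl
    by_cases h : (f s)⁻¹ = y
    · have h' : f s = y⁻¹ := by rw [← h, inv_inv]
      rw [if_pos h, if_pos h', smul_eq_mul, mul_one, h1, Int.cast_one]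
    · have h' : ¬ f s = y⁻¹ := fun h2 => h (by rw [h2, inv_inv])
      rw [if_neg h, if_neg h', smul_zero]
  | h2 a b ha hb =>
    rw [dg_add, map_add, map_add]
    change ((((pf f (dg w a)).coeff y + (pf f (dg w b)).coeff y : ℤ)) : ZMod 2) =
      (((pf f a).coeff y⁻¹ + (pf f b).coeff y⁻¹ : ℤ) : ZMod 2)
    rw [Int.cast_add, Int.cast_add, ha, hb]
  | h3 a ha =>
    rw [dg_neg, map_neg, map_neg]
    change (((-(pf f (dg w a)).coeff y : ℤ)) : ZMod 2) = ((-(pf f a).coeff y⁻¹ : ℤ) : ZMod 2)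
    rw [Int.cast_neg, Int.cast_neg, ha]

/-- right multiplications are adjoint to each other -/
theorem adjoint {T : Type} [Group T] (w : T →* ℤˣ) (f : T →* Γ) (r : RR T)
    (v a : MonoidAlgebra (ZMod 2) Γ) :
    ∑ g, v.coeff g * (a * lvl 2 f r).coeff g = ∑ h, a.coeff h * (v * lvl 2 f (dg w r)).coeff h := by
  simp only [coeff_mul_lvl, Finset.mul_sum]
  rw [Finset.sum_comm]
  refine Finset.sum_congr rfl fun h _ => Finset.sum_congr rfl fun g _ => ?_
  rw [coeff_dg]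
  have h1 : (g⁻¹ * h)⁻¹ = h⁻¹ * g := by group
  rw [h1]
  ring

end

end Pool.Agent.H26.PD.PX
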