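import Pool.Agent.H26.PX.Kap

/-!
Coherence, indicability and Euler characteristics: final form.
-/

set_option autoImplicit false
set_option linter.unusedSectionVars false

namespace Pool.Agent.H26.PD.PX

open Pool.Agent.Helper386.PD3 Pool.Agent.H26.PD.PN Pool.Agent.H26.PD.PK Pool.Agent.H26.PD.PS
  Pool.Agent.H26.PD.PT
open scoped Classical Matrix

noncomputable section

variable {G : Type} [Group G]

theorem coh_euler' {P : ℕ → Type} [∀ i, AddCommGroup (P i)]
    [∀ i, Module (MonoidAlgebra ℤ G) (P i)] {d : ∀ i, P (i + 1) →ₗ[MonoidAlgebra ℤ G] P i}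
    {ε : P 0 →+ ℤ} (hR : Helper158.Reso P d ε) (m : ℕ)
    (hm : ∀ i, m < i → Subsingleton (P i))
    [∀ i, Module.Finite (MonoidAlgebra ℤ G) (P i)]
    [∀ i, Module.Projective (MonoidAlgebra ℤ G) (P i)]
    (hcoh : ∀ i, i ≠ 3 → Subsingleton (groupCohomology (Rep.leftRegular ℤ G) i))
    (htop : Nonempty (groupCohomology (Rep.leftRegular ℤ G) 3 ≃+ ℤ))
    (S : Subgroup G) (S₀ : Subgroup S) [S₀.FiniteIndex]
    (h₀ : (∃ p : ℕ, p.Prime ∧ ResP p S₀) ∨
      ∃ (D : Type) (_ : DivisionRing D) (i : RR S₀ →+* D), Function.Injective i)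
    (hind : S.index = 0) (hne : S ≠ ⊥) (hres : (∃ p : ℕ, p.Prime ∧ ResP p S₀) ∨ ResF S)
    (k : ℕ) (h : Fin k → S) (hgen : Subgroup.closure (Set.range h) = ⊤) :
    ∃ c : ℤ, c ≤ 0 ∧ EulerFP S c ∧ (CdLE 1 S ∨ 2 - (k : ℤ) ≤ c) := by
  obtain ⟨w, n, e0, e1, e2, e3, d0, d1, d2, hF, hex2⟩ := exists_fullx hR m hm hcoh htop
  have hOE : OE G := oe_of_H1 (hcoh 1 (by norm_num))
  have hGfg : Group.FG G := fg_of_low hF.low
  have htf : ∀ g : G, g ≠ 1 → ∀ k : ℕ, 0 < k → g ^ k ≠ 1 := by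
    intro g hg k hk hgk
    apply hg
    refine Pool.Agent.Q138.PD.torsion_free d ε m inferInstance hm hR.surj hR.equi hR.ex0
      (fun i => ?_) g (isOfFinOrder_iff_pow_eq_one.2 ⟨k, hk, hgk⟩)
    ext x
    rw [LinearMap.mem_ker]
    exact hR.ex i x
  have hSi : Infinite (G ⧸ S) := by
    rw [← not_finite_iff_infinite]
    intro h
    exact Subgroup.index_ne_zero_of_finite (H := S) hind
  have hGi : Infinite G := by
    by_contra hcon
    rw [not_infinite_iff_finite] at hcon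
    exact not_finite (G ⧸ S)
  have hfg : S.FG := by
    rw [← Group.fg_iff_subgroup_fg]
    exact Group.fg_iff.2 ⟨Set.range h, hgen, Set.finite_range h⟩
  have hfin := finite_K hF hex2 hOE htf hfg S₀ h₀ h hgen
  have hproj := projective_ker hF hex2 h hgen
  have hSres : ResF S := by
    rcases hres with ⟨p, -, h1⟩ | h1
    · exact resF_of_finiteIndex S₀ (resF_of_resP h1)
    · exact h1
  obtain ⟨B⟩ := exists_DB h hfin hproj
  have hS : ∃ s ∈ S, s ≠ 1 := by
    obtain ⟨⟨g, hg⟩, hg1⟩ := (Subgroup.ne_bot_iff_exists_ne_one).1 hne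
    exact ⟨g, hg, fun h => hg1 (Subtype.ext h)⟩
  have hle := chi_nonpos hF hOE hGi hS (fun s hs k hk h1 =>
    htf s.1 (fun h2 => hs (Subtype.ext h2)) k hk (congrArg Subtype.val h1)) hSres h hgen B
  refine ⟨_, ?_, euler_of_ker h hgen hfin hproj B, ?_⟩
  · omega
  · rcases cd_or_pos hSres hgen B with h1 | h1
    · exact Or.inl h1
    · right
      omega

end

end Pool.Agent.H26.PD.PX
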