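import Pool.Agent.H26.PX.Idm

/-!
Idempotent integer matrices: behaviour of the trace under a cyclic covering of prime degree.
-/

set_option autoImplicit false
set_option linter.unusedSectionVars false

namespace Pool.Agent.H26.PD.PX

open scoped Classical Matrix

noncomputable section

variable {X Y : Type} [Fintype X] [Fintype Y] (p : ℕ) [hp : Fact p.Prime]

/-- the norm element modulo `p` -/
theorem norm_poly {R : Type} [Ring R] [Algebra (ZMod p) R] (t : R) :
    (t - 1) ^ (p - 1) = ∑ j ∈ Finset.range p, t ^ j := by
  have h1 : (Polynomial.X - 1 : Polynomial (ZMod p)) ^ (p - 1) =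
      ∑ j ∈ Finset.range p, Polynomial.X ^ j := by
    have hne : (Polynomial.X - 1 : Polynomial (ZMod p)) ≠ 0 := by
      have h := Polynomial.X_sub_C_ne_zero (1 : ZMod p)
      rwa [map_one] at h
    apply mul_right_cancel₀ hne
    rw [geom_sum_mul, ← pow_succ, Nat.sub_add_cancel hp.out.one_le, sub_pow_char, one_pow]
  have h2 := congrArg (Polynomial.aeval t) h1
  rwa [map_pow, map_sub, Polynomial.aeval_X, map_one, map_sum,
    Finset.sum_congr rfl fun j _ => by rw [map_pow, Polynomial.aeval_X]] at h2

theorem pow_char {R : Type} [Ring R] [Algebra (ZMod p) R] (t : R) :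
    (t - 1) ^ p = t ^ p - 1 := by
  rw [← geom_sum_mul, ← norm_poly p t, ← pow_succ, Nat.sub_add_cancel hp.out.one_le]

variable {p} {π : X → Y} {σ : X → X}

/-- the elements of a fibre -/
theorem sum_fibre (hσ : ∀ x, π (σ x) = π x) (hper : ∀ x, σ^[p] x = x) (hfree : ∀ x, σ x ≠ x)
    (horb : ∀ x x', π x = π x' → ∃ j, σ^[j] x = x') {A : Type} [AddCommMonoid A] (v : X → A)
    (x : X) : ∑ j ∈ Finset.range p, v (σ^[j] x) = ∑ x' ∈ Finset.univ.filter (fun x' => π x' = π x),
      v x' := by
  have hmin : Function.minimalPeriod σ x = p :=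
    Function.minimalPeriod_eq_prime (hper x) (hfree x)
  have hπj : ∀ j, π (σ^[j] x) = π x := by
    intro j
    induction j with
    | zero => rfl
    | succ j ih => rw [Function.iterate_succ_apply', hσ, ih]
  refine Finset.sum_bij (fun j _ => σ^[j] x) ?_ ?_ ?_ ?_
  · intro j _
    exact Finset.mem_filter.2 ⟨Finset.mem_univ _, hπj j⟩
  · intro i hi j hj hij
    rw [Finset.mem_range] at hi hj
    have h1 := Function.iterate_injOn_Iio_minimalPeriod (f := σ) (x := x)
    rw [hmin] at h1
    exact h1 hi hj hij
  · intro x' hx'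
    obtain ⟨j, hj⟩ := horb x x' (Finset.mem_filter.1 hx').2.symm
    refine ⟨j % p, Finset.mem_range.2 (Nat.mod_lt _ hp.out.pos), ?_⟩
    rw [← hj]
    have h1 := Function.iterate_mod_minimalPeriod_eq (f := σ) (x := x) (n := j)
    rwa [hmin] at h1
  · intro j _
    rfl

/-- the push forward -/
def push (F : Type) [Field F] (π : X → Y) : (X → F) →ₗ[F] (Y → F) where
  toFun v y := ∑ x ∈ Finset.univ.filter (fun x => π x = y), v x
  map_add' v v' := by
    funext y
    exact Finset.sum_add_distrib
  map_smul' c v := by
    funext y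
    exact (Finset.mul_sum _ _ _).symm

theorem push_apply {F : Type} [Field F] (v : X → F) (y : Y) :
    push F π v y = ∑ x ∈ Finset.univ.filter (fun x => π x = y), v x := rfl

/-- **Cyclic coverings of prime degree.** -/
theorem trace_cover (hπ : Function.Surjective π) (hσ : ∀ x, π (σ x) = π x)
    (hper : ∀ x, σ^[p] x = x) (hfree : ∀ x, σ x ≠ x)
    (horb : ∀ x x', π x = π x' → ∃ j, σ^[j] x = x') (M : Matrix X X ℤ) (M' : Matrix Y Y ℤ)
    (hM : M * M = M) (hM' : M' * M' = M') (hinv : ∀ x x', M (σ x) (σ x') = M x x')
    (hpush : ∀ y x', ∑ x ∈ Finset.univ.filter (fun x => π x = y), M x x' = M' y (π x')) :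
    M.trace = p * M'.trace := by
  let F := ZMod p
  let T : (X → F) →ₗ[F] (X → F) := LinearMap.funLeft F F σ
  let m : (X → F) →ₗ[F] (X → F) := Matrix.mulVecLin (red p M)
  let m' : (Y → F) →ₗ[F] (Y → F) := Matrix.mulVecLin (red p M')
  let P : (X → F) →ₗ[F] (Y → F) := push F π
  let Q : (Y → F) →ₗ[F] (X → F) := LinearMap.funLeft F F π
  have hTv : ∀ v x, T v x = v (σ x) := fun _ _ => rfl
  have hQv : ∀ v x, Q v x = v (π x) := fun _ _ => rfl
  have hmv : ∀ v x, m v x = ∑ x', ((M x x' : ℤ) : F) * v x' := fun _ _ => rfl
  have hmv' : ∀ v x, m' v x = ∑ x', ((M' x x' : ℤ) : F) * v x' := fun _ _ => rfl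
  have hPv : ∀ v y, P v y = ∑ x ∈ Finset.univ.filter (fun x => π x = y), v x := fun _ _ => rfl
  have hbij : Function.Bijective σ := by
    have h1 : Function.Surjective σ := by
      intro x
      refine ⟨σ^[p - 1] x, ?_⟩
      rw [← Function.iterate_succ_apply' σ, Nat.succ_eq_add_one, Nat.sub_add_cancel hp.out.one_le]
      exact hper x
    exact ⟨Finite.injective_iff_surjective.2 h1, h1⟩
  -- commutation relations
  have hTm : ∀ v, T (m v) = m (T v) := by
    intro v
    funext x
    rw [hTv, hmv, hmv]
    refine (Function.Bijective.sum_comp hbij _).symm.trans ?_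
    exact Finset.sum_congr rfl fun x' _ => by rw [hinv, hTv]
  have hPm : ∀ v, P (m v) = m' (P v) := by
    intro v
    funext y
    rw [hPv, hmv']
    simp only [hmv, hPv]
    rw [Finset.sum_comm]
    have h1 : ∀ x', ∑ x ∈ Finset.univ.filter (fun x => π x = y), ((M x x' : ℤ) : F) * v x' =
        ((M' y (π x') : ℤ) : F) * v x' := by
      intro x'
      rw [← Finset.sum_mul, ← hpush, Int.cast_sum]
    rw [Finset.sum_congr rfl fun x' _ => h1 x', ← Finset.sum_fiberwise Finset.univ π]
    refine Finset.sum_congr rfl fun y' _ => ?_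
    refine Eq.trans ?_ (Finset.mul_sum _ _ _).symm
    refine Finset.sum_congr rfl fun x' hx' => ?_
    rw [(Finset.mem_filter.1 hx').2]
  have hPs : Function.Surjective P := by
    intro w
    obtain ⟨s, hs⟩ := hπ.hasRightInverse
    refine ⟨fun x => if x = s (π x) then w (π x) else 0, ?_⟩
    funext y
    rw [hPv, Finset.sum_eq_single (s y)]
    · rw [hs y, if_pos rfl]
    · intro x hx hne
      rw [if_neg]
      intro h
      apply hne
      rw [h, (Finset.mem_filter.1 hx).2]
    · intro h
      exact absurd (Finset.mem_filter.2 ⟨Finset.mem_univ (s y), hs y⟩) h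
  have hQi : Function.Injective Q := LinearMap.funLeft_injective_of_surjective F F π hπ
  -- powers
  have hTj : ∀ (j : ℕ) v x, (T ^ j) v x = v (σ^[j] x) := by
    intro j
    induction j with
    | zero => intro v x; rfl
    | succ j ih =>
      intro v x
      rw [pow_succ, Module.End.mul_apply, ih, hTv, ← Function.iterate_succ_apply' σ]
  have hTp : T ^ p = 1 := by
    refine LinearMap.ext fun v => funext fun x => ?_
    rw [hTj, hper]
    rfl
  let u : (X → F) →ₗ[F] (X → F) := T - 1
  have hup : u ^ p = 0 := by
    change (T - 1) ^ p = 0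
    rw [pow_char p T, hTp, sub_self]
  have huN : ∀ v, (u ^ (p - 1)) v = Q (P v) := by
    intro v
    funext x
    change ((T - 1) ^ (p - 1)) v x = _
    rw [norm_poly p T, LinearMap.sum_apply, Finset.sum_apply, hQv, hPv,
      ← sum_fibre hσ hper hfree horb v x]
    exact Finset.sum_congr rfl fun j _ => hTj j v x
  have hum : ∀ v, u (m v) = m (u v) := by
    intro v
    change T (m v) - m v = m (T v - v)
    rw [map_sub, hTm]
  have hujm : ∀ (j : ℕ) v, (u ^ j) (m v) = m ((u ^ j) v) := by
    intro j
    induction j with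
    | zero => intro v; rfl
    | succ j ih => intro v; rw [pow_succ', Module.End.mul_apply, Module.End.mul_apply, ih, hum]
  have hmm : ∀ v, m (m v) = m v := by
    intro v
    have h1 : red p M * red p M = red p M := by
      have h3 : red p (M * M) = red p M * red p M := Matrix.map_mul
      rw [← h3, hM]
    change Matrix.mulVecLin (red p M) (Matrix.mulVecLin (red p M) v) = Matrix.mulVecLin (red p M) v
    rw [← LinearMap.comp_apply, ← Matrix.mulVecLin_mul, h1]
  have hmQ : ∀ w, m (Q w) = Q (m' w) := by
    intro w
    obtain ⟨v, rfl⟩ := hPs w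
    rw [← huN, ← hujm, huN, hPm]
  -- the last term of the filtration
  let D : Submodule F (X → F) := (LinearMap.range m').map Q
  have hD1 : Module.finrank F D = (red p M').rank :=
    (Submodule.equivMapOfInjective Q hQi (LinearMap.range m')).finrank_eq.symm
  have hD2 : ∀ v, (u ^ (p - 1)) (m v) ∈ D := by
    intro v
    rw [huN, hPm]
    exact ⟨_, ⟨_, rfl⟩, rfl⟩
  have hD3 : ∀ x ∈ D, ∃ v, x = (u ^ (p - 1)) (m v) := by
    rintro _ ⟨_, ⟨w, rfl⟩, rfl⟩
    obtain ⟨v, rfl⟩ := hPs w
    exact ⟨v, by rw [huN, hPm]⟩
  let A : ℕ → Submodule F (X → F) := fun i => (LinearMap.range m).map (u ^ i)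
  have hstep : ∀ i < p, Module.finrank F (A i) = Module.finrank F (A (i + 1)) +
      Module.finrank F D := by
    intro i hi
    have h1 : A (i + 1) = LinearMap.range (u.domRestrict (A i)) := by
      rw [LinearMap.range_domRestrict]
      change (LinearMap.range m).map (u ^ (i + 1)) = ((LinearMap.range m).map (u ^ i)).map u
      rw [← Submodule.map_comp, pow_succ']
      rfl
    have hDA : D ≤ A i := by
      intro x hx
      obtain ⟨v, rfl⟩ := hD3 x hx
      refine ⟨m ((u ^ (p - 1 - i)) v), ⟨_, rfl⟩, ?_⟩
      have h3 : u ^ (p - 1) = u ^ i * u ^ (p - 1 - i) := by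
        rw [← pow_add]
        congr 1
        omega
      rw [h3, Module.End.mul_apply, hujm (p - 1 - i)]
    have h2 : LinearMap.ker (u.domRestrict (A i)) = D.comap (A i).subtype := by
      ext ⟨x, hx⟩
      rw [LinearMap.mem_ker, LinearMap.domRestrict_apply, Submodule.mem_comap,
        Submodule.subtype_apply]
      constructor
      · intro hux
        change u x = 0 at hux
        obtain ⟨_, ⟨v, rfl⟩, hxv⟩ := hx
        have hmx : m x = x := by
          rw [← hxv, ← hujm, hmm]
        have hTx : ∀ y, x (σ y) = x y := by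
          intro y
          have h3 := congrFun hux y
          change x (σ y) - x y = 0 at h3
          exact sub_eq_zero.1 h3
        have hTx' : ∀ (j : ℕ) y, x (σ^[j] y) = x y := by
          intro j
          induction j with
          | zero => intro y; rfl
          | succ j ih => intro y; rw [Function.iterate_succ_apply', hTx, ih]
        obtain ⟨s, hs⟩ := hπ.hasRightInverse
        have hxQ : x = Q (fun y => x (s y)) := by
          funext y
          rw [hQv]
          obtain ⟨j, hj⟩ := horb (s (π y)) y (hs _)
          rw [← hj, hTx', hj]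
        change x ∈ D
        have h5 : x = Q (m' (fun y => x (s y))) := by
          rw [← hmQ, ← hxQ, hmx]
        rw [h5]
        exact ⟨_, ⟨_, rfl⟩, rfl⟩
      · intro hxD
        change x ∈ D at hxD
        change u x = 0
        obtain ⟨v, rfl⟩ := hD3 x hxD
        rw [← Module.End.mul_apply, ← pow_succ', Nat.sub_add_cancel hp.out.one_le, hup]
        rfl
    have h3 := LinearMap.finrank_range_add_finrank_ker (u.domRestrict (A i))
    rw [← h1, h2, (Submodule.comapSubtypeEquivOfLe hDA).finrank_eq] at h3
    exact h3.symm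
  have hall : ∀ i ≤ p, Module.finrank F (A 0) = Module.finrank F (A i) +
      i * Module.finrank F D := by
    intro i
    induction i with
    | zero => intro _; rw [zero_mul, add_zero]
    | succ i ih =>
      intro hi
      rw [ih (by omega), hstep i (by omega), add_mul, one_mul]
      ring
  have h0 : Module.finrank F (A 0) = (red p M).rank := by
    have h1 : A 0 = LinearMap.range m := by
      change (LinearMap.range m).map (u ^ 0) = _
      rw [pow_zero]
      exact Submodule.map_id _
    rw [h1]
    rfl
  have hp' : Module.finrank F (A p) = 0 := by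
    have h1 : A p = ⊥ := by
      change (LinearMap.range m).map (u ^ p) = _
      rw [hup, Submodule.map_zero]
    rw [h1, finrank_bot]
  have hfin := hall p le_rfl
  rw [h0, hp', zero_add, hD1] at hfin
  rw [← rank_red p M hM, ← rank_red p M' hM', hfin]
  push_cast
  rfl

end

end Pool.Agent.H26.PD.PX
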