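import Pool.Agent.H26.PX.Cnt
import Pool.Agent.H26.PT.Main

/-!
Finitely generated residually finite subgroups of infinite index map onto `ℤ`.
-/

set_option autoImplicit false
set_option linter.unusedSectionVars false

namespace Pool.Agent.H26.PD.PX

open Pool.Agent.Helper386.PD3 Pool.Agent.H26.PD.PN Pool.Agent.H26.PD.PK Pool.Agent.H26.PD.PS
  Pool.Agent.H26.PD.PT
open scoped Classical Matrix

noncomputable section

variable {T : Type} [Group T] {m : ℕ}

/-- a group with negative deficiency of the second syzygy maps onto `ℤ` -/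
theorem exists_hom {h : Fin m → T} (hgen : Subgroup.closure (Set.range h) = ⊤) (B : DB h)
    (hB : ∑ l, eps (B.φ l (B.κ l)) + 1 ≤ (m : ℤ)) : ∃ χ : T →* Multiplicative ℤ, χ ≠ 1 := by
  let E : Matrix (Fin B.N) (Fin B.N) (RR T) := fun l j => B.φ j (B.κ l)
  have hE : E * E = E := by
    ext1 l j
    rw [Matrix.mul_apply]
    change ∑ k, B.φ k (B.κ l) * B.φ j (B.κ k) = B.φ j (B.κ l)
    conv_rhs => rw [B.hκ (B.κ l), map_sum]
    exact Finset.sum_congr rfl fun k _ => by rw [map_smul, smul_eq_mul]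
  let e : Matrix (Fin B.N) (Fin B.N) ℤ := E.map eps
  have he : e * e = e := by
    have h1 : (E * E).map eps = E.map eps * E.map eps := Matrix.map_mul
    change E.map eps * E.map eps = E.map eps
    rw [← h1, hE]
  obtain ⟨a, U, V, hUV, -, ha⟩ := exists_factor e he
  have ham : a < m := by
    have h1 : e.trace = ∑ l, eps (B.φ l (B.κ l)) := rfl
    rw [h1] at ha
    omega
  let W : Matrix (Fin B.N) (Fin m) ℤ := fun l b => eps ((B.κ l).1 b)
  have hW : W = U * (V * W) := by
    rw [← Matrix.mul_assoc, ← hUV]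
    ext1 l b
    rw [Matrix.mul_apply]
    change eps ((B.κ l).1 b) = ∑ j, eps (B.φ j (B.κ l)) * eps ((B.κ j).1 b)
    have h1 := congrArg (fun z : LinearMap.ker (bd h) => z.1 b) (B.hκ (B.κ l))
    change (B.κ l).1 b = (∑ j, B.φ j (B.κ l) • B.κ j : LinearMap.ker (bd h)).1 b at h1
    rw [Submodule.coe_sum, Finset.sum_apply] at h1
    rw [h1, map_sum]
    exact Finset.sum_congr rfl fun j _ => map_mul _ _ _
  obtain ⟨v, hv0, hv⟩ : ∃ v : Fin m → ℤ, v ≠ 0 ∧ (V * W) *ᵥ v = 0 := by
    by_contra hcon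
    push Not at hcon
    have h1 : Function.Injective (Matrix.mulVecLin (V * W)) := by
      rw [injective_iff_map_eq_zero]
      intro v hv
      by_contra hne
      exact hcon v hne hv
    have h2 := le_of_fin_injective ℤ _ h1
    omega
  have hWv : ∀ l, ∑ b, eps ((B.κ l).1 b) * v b = 0 := by
    intro l
    have h1 : W *ᵥ v = 0 := by
      rw [hW, ← Matrix.mulVec_mulVec, hv, Matrix.mulVec_zero]
    exact congrFun h1 l
  let lam : (Fin m → RR T) →+ ℤ := AddMonoidHom.mk' (fun z => ∑ b, eps (z b) * v b)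
    (fun z z' => by
      rw [← Finset.sum_add_distrib]
      exact Finset.sum_congr rfl fun b _ => by rw [Pi.add_apply, map_add, add_mul])
  have hlam : ∀ z, lam z = ∑ b, eps (z b) * v b := fun _ => rfl
  have hlams : ∀ (r : RR T) z, lam (r • z) = eps r * lam z := by
    intro r z
    rw [hlam, hlam, Finset.mul_sum]
    exact Finset.sum_congr rfl fun b _ => by rw [Pi.smul_apply, smul_eq_mul, map_mul, mul_assoc]
  have hlamK : ∀ z, bd h z = 0 → lam z = 0 := by
    intro z hz
    have h1 := congrArg Subtype.val (B.hκ ⟨z, hz⟩)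
    rw [Submodule.coe_sum] at h1
    change z = ∑ l, B.φ l ⟨z, hz⟩ • (B.κ l).1 at h1
    rw [h1, map_sum]
    refine Finset.sum_eq_zero fun l _ => ?_
    rw [hlams, hlam, hWv, mul_zero]
  have hex : ∀ s : T, ∃ z, bd h z = gof s - 1 := fun s =>
    bd_surj' h hgen (by rw [map_sub, eps_of, map_one, sub_self])
  choose z hz using hex
  have hlz : ∀ y y', bd h y = bd h y' → lam y = lam y' := by
    intro y y' hy
    rw [← sub_eq_zero, ← map_sub]
    exact hlamK _ (by rw [map_sub, hy, sub_self])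
  refine ⟨{ toFun := fun s => Multiplicative.ofAdd (lam (z s))
            map_one' := by
              have h1 := hlz (z 1) 0 (by rw [hz, gof_one, sub_self, map_zero])
              rw [h1, map_zero]
              rfl
            map_mul' := fun s t => by
              have h1 := hlz (z (s * t)) (z s + gof s • z t) (by
                rw [map_add, map_smul, hz, hz, hz, smul_eq_mul, mul_sub, mul_one, ← gof_mul]
                abel)
              rw [h1, map_add, hlams, eps_of, one_mul]
              rfl }, ?_⟩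
  intro h1
  apply hv0
  funext b
  have h2 := congrArg (fun f : T →* Multiplicative ℤ => (f (h b)).toAdd) h1
  change lam (z (h b)) = 0 at h2
  have h3 := hlz (z (h b)) (Pi.single b 1) (by rw [hz, bd_single])
  rw [h3, hlam, Finset.sum_eq_single b] at h2
  · rw [Pi.single_eq_same, map_one, one_mul] at h2
    exact h2
  · intro b' _ hb'
    rw [Pi.single_eq_of_ne hb', map_zero, zero_mul]
  · intro h
    exact absurd (Finset.mem_univ b) h

/-- a group is residually finite if a subgroup of finite index is so -/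
theorem resF_of_finiteIndex (T₀ : Subgroup T) [T₀.FiniteIndex] (h : ResF T₀) : ResF T := by
  intro t ht
  obtain ⟨K, hK, htK⟩ : ∃ K : Subgroup T, K.FiniteIndex ∧ t ∉ K := by
    by_cases htT : t ∈ T₀
    · obtain ⟨P, iP, fP, f, hf⟩ := h ⟨t, htT⟩ (fun h1 => ht (congrArg Subtype.val h1))
      refine ⟨f.ker.map T₀.subtype, ?_, ?_⟩
      · constructor
        rw [Subgroup.index_map_subtype]
        exact mul_ne_zero (Subgroup.FiniteIndex.index_ne_zero (H := f.ker))
          (Subgroup.FiniteIndex.index_ne_zero (H := T₀))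
      · rintro ⟨x, hx, hxt⟩
        apply hf
        have h1 : x = ⟨t, htT⟩ := Subtype.ext hxt
        rw [← h1]
        exact hx
    · exact ⟨T₀, inferInstance, htT⟩
  refine ⟨T ⧸ K.normalCore, inferInstance, inferInstance, QuotientGroup.mk' K.normalCore, ?_⟩
  intro h1
  exact htK (K.normalCore_le ((QuotientGroup.eq_one_iff t).1 h1))

theorem resF_of_resP {p : ℕ} (h : ResP p T) : ResF T := by
  intro t ht
  obtain ⟨P, iP, fP, f, -, hf⟩ := h t ht
  exact ⟨P, iP, fP, f, hf⟩

theorem ResF.of_inj {A B : Type} [Group A] [Group B] (h : ResF B) (f : A →* B)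
    (hf : Function.Injective f) : ResF A := by
  intro a ha
  obtain ⟨P, iP, fP, g, hg⟩ := h (f a) (fun h1 => ha (hf (by rw [h1, map_one])))
  exact ⟨P, iP, fP, g.comp f, hg⟩

variable {G : Type} [Group G] {n : ℕ} {w : G →* ℤˣ} {e0 e1 e2 e3 d0 d1 d2 : MR G n}

/-- **Indicability.** -/
theorem indicable (hF : Full w e0 e1 e2 e3 d0 d1 d2)
    (hex2 : ∀ v, v ᵥ* e2 = v → v ᵥ* d1 = 0 → ∃ u, u ᵥ* d2 = v) (hOE : OE G) [hG : Group.FG G]
    (htf : ∀ g : G, g ≠ 1 → ∀ k : ℕ, 0 < k → g ^ k ≠ 1) (S : Subgroup G) [hSi : Infinite (G ⧸ S)]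
    (hne : S ≠ ⊥) (hK : FGK S) (hres : ResF S) :
    ∃ χ : S →* Multiplicative ℤ, χ ≠ 1 := by
  have hGi : Infinite G := by
    by_contra hcon
    rw [not_infinite_iff_finite] at hcon
    exact not_finite (G ⧸ S)
  obtain ⟨m, h, hgen, hfg⟩ := hK
  obtain ⟨B⟩ := exists_DB h (Module.Finite.iff_fg.2 hfg) (projective_ker hF hex2 h hgen)
  have hS : ∃ s ∈ S, s ≠ 1 := by
    obtain ⟨⟨g, hg⟩, hg1⟩ := (Subgroup.ne_bot_iff_exists_ne_one).1 hne
    exact ⟨g, hg, fun h => hg1 (Subtype.ext h)⟩
  refine exists_hom hgen B (chi_nonpos hF hOE hGi hS ?_ hres h hgen B)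
  intro s hs k hk h1
  exact htf s.1 (fun h2 => hs (Subtype.ext h2)) k hk (congrArg Subtype.val h1)

end

end Pool.Agent.H26.PD.PX
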