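import Mathlib

/-!
Idempotent integer matrices: the trace is the rank modulo every prime; behaviour under a cyclic
covering of prime degree.
-/

set_option autoImplicit false

namespace Pool.Agent.H26.PD.PX

open scoped Classical Matrix

noncomputable section

variable {X Y : Type} [Fintype X] [Fintype Y]

/-- an idempotent integer matrix factors through a free module of rank its trace -/
theorem exists_factor (M : Matrix X X ℤ) (hM : M * M = M) :
    ∃ (a : ℕ) (U : Matrix X (Fin a) ℤ) (V : Matrix (Fin a) X ℤ), M = U * V ∧ V * U = 1 ∧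
      (a : ℤ) = M.trace := by
  let f : (X → ℤ) →ₗ[ℤ] (X → ℤ) := Matrix.toLin' M
  have hf : ∀ x, f (f x) = f x := by
    intro x
    change Matrix.toLin' M (Matrix.toLin' M x) = Matrix.toLin' M x
    rw [← Matrix.toLin'_mul_apply, hM]
  let R := LinearMap.range f
  let b : Module.Basis (Fin (Module.finrank ℤ R)) ℤ R := Module.finBasis ℤ R
  let U : Matrix X (Fin (Module.finrank ℤ R)) ℤ := fun x k => (b k : X → ℤ) x
  let V : Matrix (Fin (Module.finrank ℤ R)) X ℤ := fun k x =>
    b.repr (f.rangeRestrict (Pi.single x 1)) k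
  have hUV : M = U * V := by
    ext x y
    have h1 : ∑ k, b.repr (f.rangeRestrict (Pi.single y 1)) k • b k =
        f.rangeRestrict (Pi.single y 1) := b.sum_repr _
    have h2 := congrArg (fun r : R => (r : X → ℤ) x) h1
    have h3 : (f (Pi.single y 1)) x = M x y := by
      change Matrix.toLin' M (Pi.single y 1) x = M x y
      rw [Matrix.toLin'_apply, Matrix.mulVec_single_one]
      rfl
    change (((∑ k, b.repr (f.rangeRestrict (Pi.single y 1)) k • b k : R)) : X → ℤ) x =
      (f (Pi.single y 1)) x at h2
    rw [h3, Submodule.coe_sum, Finset.sum_apply] at h2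
    rw [← h2, Matrix.mul_apply]
    exact Finset.sum_congr rfl fun k _ => mul_comm _ _
  have hVU : V * U = 1 := by
    ext k l
    have h1 : f.rangeRestrict (b l : X → ℤ) = b l := by
      obtain ⟨y, hy⟩ := (b l).2
      apply Subtype.ext
      change f (b l : X → ℤ) = (b l : X → ℤ)
      rw [← hy, hf]
    have h2 : (b l : X → ℤ) = ∑ x, (b l : X → ℤ) x • (Pi.single x 1 : X → ℤ) := by
      funext y
      rw [Finset.sum_apply, Finset.sum_eq_single y]
      · simp
      · intro z _ hz
        rw [Pi.smul_apply, Pi.single_eq_of_ne (Ne.symm hz), smul_zero]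
      · intro h
        exact absurd (Finset.mem_univ y) h
    have h3 : (V * U) k l = b.repr (f.rangeRestrict (b l : X → ℤ)) k := by
      conv_rhs => rw [h2, map_sum, map_sum]
      rw [Finsupp.finsetSum_apply, Matrix.mul_apply]
      refine Finset.sum_congr rfl fun x _ => ?_
      rw [map_smul, map_smul, Finsupp.smul_apply, smul_eq_mul, mul_comm]
    rw [h3, h1, b.repr_self, Finsupp.single_apply, Matrix.one_apply]
    by_cases h : l = k
    · rw [if_pos h, if_pos h.symm]
    · rw [if_neg h, if_neg fun h' => h h'.symm]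
  refine ⟨_, U, V, hUV, hVU, ?_⟩
  rw [hUV, Matrix.trace_mul_comm, hVU, Matrix.trace_one, Fintype.card_fin]

variable (p : ℕ) [hp : Fact p.Prime]

/-- reduction of a matrix modulo a prime -/
abbrev red {A B : Type} (M : Matrix A B ℤ) : Matrix A B (ZMod p) := M.map (Int.castRingHom (ZMod p))

theorem rank_le (M : Matrix X X ℤ) (hM : M * M = M) : ((red p M).rank : ℤ) ≤ M.trace := by
  obtain ⟨a, U, V, hUV, -, ha⟩ := exists_factor M hM
  rw [← ha]
  have h1 : red p M = red p U * red p V := by
    rw [hUV]
    exact Matrix.map_mul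
  rw [h1]
  have h2 := (Matrix.rank_mul_le_left (red p U) (red p V)).trans (Matrix.rank_le_card_width _)
  rw [Fintype.card_fin] at h2
  exact_mod_cast h2

/-- **The trace of an idempotent integer matrix is its rank modulo every prime.** -/
theorem rank_red (M : Matrix X X ℤ) (hM : M * M = M) : ((red p M).rank : ℤ) = M.trace := by
  have hM' : (1 - M) * (1 - M) = 1 - M := by
    rw [mul_sub, sub_mul, sub_mul, hM]
    simp
  have h1 := rank_le p M hM
  have h2 := rank_le p (1 - M) hM'
  have h3 : red p (1 - M) = 1 - red p M := by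
    ext x y
    change ((((1 : Matrix X X ℤ) x y - M x y : ℤ)) : ZMod p) =
      (1 : Matrix X X (ZMod p)) x y - ((M x y : ℤ) : ZMod p)
    rw [Matrix.one_apply, Matrix.one_apply, Int.cast_sub]
    split_ifs <;> simp
  have h4 : Fintype.card X ≤ (red p M).rank + (red p (1 - M)).rank := by
    rw [h3]
    have h5 : (⊤ : Submodule (ZMod p) (X → ZMod p)) ≤ LinearMap.range (Matrix.mulVecLin (red p M)) ⊔
        LinearMap.range (Matrix.mulVecLin (1 - red p M)) := by
      intro v _
      have h6 : v = Matrix.mulVecLin (red p M) v + Matrix.mulVecLin (1 - red p M) v := by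
        rw [Matrix.mulVecLin_apply, Matrix.mulVecLin_apply, Matrix.sub_mulVec, Matrix.one_mulVec,
          add_sub_cancel]
      rw [h6]
      exact Submodule.add_mem_sup ⟨v, rfl⟩ ⟨v, rfl⟩
    have h6 := Submodule.finrank_mono h5
    rw [finrank_top, Module.finrank_fintype_fun_eq_card] at h6
    exact h6.trans (Submodule.finrank_add_le_finrank_add_finrank _ _)
  rw [Matrix.trace_sub, Matrix.trace_one] at h2
  have h5 : (Fintype.card X : ℤ) ≤ (red p M).rank + (red p (1 - M)).rank := by exact_mod_cast h4
  linarith

/-- the number of fixed vectors of an idempotent -/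
theorem card_range {A : Type} [Fintype A] (M : Matrix A A (ZMod p)) :
    Nat.card (LinearMap.range (Matrix.mulVecLin M)) = p ^ M.rank := by
  rw [Module.natCard_eq_pow_finrank (K := ZMod p), Nat.card_eq_fintype_card, ZMod.card]
  rfl

end

end Pool.Agent.H26.PD.PX
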