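import Pool.Agent.H26.PX.Main

/-!
The rank of the coinvariants of a finitely generated projective module.
-/

set_option autoImplicit false
set_option linter.unusedSectionVars false

namespace Pool.Agent.H26.PD.PX

open Pool.Agent.Helper386.PD3 Pool.Agent.H26.PD.PN Pool.Agent.H26.PD.PK Pool.Agent.H26.PD.PS
  Pool.Agent.H26.PD.PT
open scoped Classical Matrix

noncomputable section

section crk

variable (T : Type) [Group T] (P : Type) [AddCommGroup P] [Module (MonoidAlgebra ℤ T) P]

/-- the subgroup generated by the elements `g x - x` -/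
def Cs : AddSubgroup P :=
  AddSubgroup.closure {y : P | ∃ (g : T) (x : P), y = MonoidAlgebra.of ℤ T g • x - x}

/-- The rank over `ℤ` of the coinvariants. -/
def crk : ℕ := Module.finrank ℤ (P ⧸ Cs T P)

variable {T P}

theorem cs_smul (r : RR T) (x : P) : r • x - eps r • x ∈ Cs T P := by
  induction r using rr_ind with
  | h1 g =>
    rw [eps_of, one_smul]
    exact AddSubgroup.subset_closure ⟨g, x, rfl⟩
  | h2 r s hr hs =>
    rw [map_add, add_smul, add_smul]
    have : r • x + s • x - (eps r • x + eps s • x) = (r • x - eps r • x) + (s • x - eps s • x) := by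
      abel
    rw [this]
    exact add_mem hr hs
  | h3 r hr =>
    rw [map_neg, neg_smul, neg_smul]
    have : -(r • x) - -(eps r • x) = -(r • x - eps r • x) := by abel
    rw [this]
    exact neg_mem hr

theorem crk_eq {N : ℕ} (κ : Fin N → P) (φ : Fin N → (P →ₗ[RR T] RR T))
    (h : ∀ x, x = ∑ l, φ l x • κ l) : (crk T P : ℤ) = ∑ l, eps (φ l (κ l)) := by
  let E : Matrix (Fin N) (Fin N) (RR T) := fun l j => φ j (κ l)
  have hE : E * E = E := by
    ext1 l j
    rw [Matrix.mul_apply]
    change ∑ k, φ k (κ l) * φ j (κ k) = φ j (κ l)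
    conv_rhs => rw [h (κ l), map_sum]
    exact Finset.sum_congr rfl fun k _ => by rw [map_smul, smul_eq_mul]
  let e : Matrix (Fin N) (Fin N) ℤ := E.map eps
  have he : e * e = e := by
    have h1 : (E * E).map eps = E.map eps * E.map eps := Matrix.map_mul
    change E.map eps * E.map eps = E.map eps
    rw [← h1, hE]
  obtain ⟨a, U, V, hUV, hVU, ha⟩ := exists_factor e he
  have ha' : (a : ℤ) = ∑ l, eps (φ l (κ l)) := ha
  rw [← ha']
  -- the two maps
  let f0 : P →+ (Fin N → ℤ) := AddMonoidHom.mk' (fun x l => eps (φ l x)) (fun x y => by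
    funext l
    rw [Pi.add_apply, map_add, map_add])
  have hf0 : ∀ x ∈ Cs T P, f0 x = 0 := by
    intro x hx
    have h1 : Cs T P ≤ f0.ker := by
      refine (AddSubgroup.closure_le _).2 ?_
      rintro _ ⟨g, x, rfl⟩
      change f0 _ = 0
      rw [map_sub, sub_eq_zero]
      funext l
      change eps (φ l (gof g • x)) = eps (φ l x)
      rw [map_smul, smul_eq_mul, map_mul, eps_of, one_mul]
    exact h1 hx
  let f1 : P ⧸ Cs T P →+ (Fin N → ℤ) := QuotientAddGroup.lift (Cs T P) f0 hf0
  let f : P ⧸ Cs T P →ₗ[ℤ] (Fin N → ℤ) := f1.toIntLinearMap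
  have hf : ∀ x : P, f (QuotientAddGroup.mk x) = fun l => eps (φ l x) := fun _ => rfl
  let g : (Fin N → ℤ) →ₗ[ℤ] P ⧸ Cs T P :=
    Fintype.linearCombination ℤ (fun l => (QuotientAddGroup.mk (κ l) : P ⧸ Cs T P))
  have hg : ∀ v, g v = ∑ l, v l • (QuotientAddGroup.mk (κ l) : P ⧸ Cs T P) := fun v =>
    Fintype.linearCombination_apply ℤ _ v
  have hgf : ∀ q, g (f q) = q := by
    intro q
    obtain ⟨x, rfl⟩ := QuotientAddGroup.mk_surjective q
    rw [hf, hg]
    have h1 : (QuotientAddGroup.mk x : P ⧸ Cs T P) =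
        QuotientAddGroup.mk (∑ l, eps (φ l x) • κ l) := by
      rw [QuotientAddGroup.eq_iff_sub_mem]
      have h3 : x - ∑ l, eps (φ l x) • κ l = ∑ l, (φ l x • κ l - eps (φ l x) • κ l) := by
        rw [Finset.sum_sub_distrib, ← h x]
      rw [h3]
      exact sum_mem fun l _ => cs_smul _ _
    rw [h1]
    have h2 : ∀ y : P, (QuotientAddGroup.mk y : P ⧸ Cs T P) = QuotientAddGroup.mk' (Cs T P) y :=
      fun _ => rfl
    rw [h2, map_sum]
    exact Finset.sum_congr rfl fun l _ => by rw [map_zsmul]; rfl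
  have hfg : ∀ v, f (g v) = v ᵥ* e := by
    intro v
    rw [hg, map_sum]
    funext j
    rw [Finset.sum_apply]
    change _ = ∑ l, v l * eps (φ j (κ l))
    exact Finset.sum_congr rfl fun l _ => by rw [map_smul, Pi.smul_apply, hf, smul_eq_mul]
  let A : (P ⧸ Cs T P) →ₗ[ℤ] (Fin a → ℤ) := (Matrix.vecMulLinear U).comp f
  let B : (Fin a → ℤ) →ₗ[ℤ] (P ⧸ Cs T P) := g.comp (Matrix.vecMulLinear V)
  have hAB : ∀ c, A (B c) = c := by
    intro c
    change f (g (c ᵥ* V)) ᵥ* U = c
    have h3 : V * (U * V * U) = 1 := by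
      rw [Matrix.mul_assoc U V U, hVU, Matrix.mul_one, hVU]
    rw [hfg, hUV, Matrix.vecMul_vecMul, Matrix.vecMul_vecMul, h3, Matrix.vecMul_one]
  have hBA : ∀ q, B (A q) = q := by
    intro q
    change g ((f q ᵥ* U) ᵥ* V) = q
    rw [Matrix.vecMul_vecMul, ← hUV, ← hfg, hgf, hgf]
  let L : (P ⧸ Cs T P) ≃ₗ[ℤ] (Fin a → ℤ) := LinearEquiv.ofLinearMap A B
    (LinearMap.ext hAB) (LinearMap.ext hBA)
  change ((Module.finrank ℤ (P ⧸ Cs T P) : ℕ) : ℤ) = a
  rw [L.finrank_eq, Module.finrank_fin_fun]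

theorem crk_free (N : ℕ) : crk T (Fin N → RR T) = N := by
  have h1 := crk_eq (T := T) (P := Fin N → RR T) (fun l => Pi.single l 1)
    (fun l => LinearMap.proj l) (fun x => by
      funext j
      rw [Finset.sum_apply, Finset.sum_eq_single j]
      · rw [Pi.smul_apply, Pi.single_eq_same, smul_eq_mul, mul_one]
        rfl
      · intro l _ hl
        rw [Pi.smul_apply, Pi.single_eq_of_ne (Ne.symm hl), smul_zero]
      · intro h
        exact absurd (Finset.mem_univ j) h)
  have h2 : ∑ l : Fin N, eps ((LinearMap.proj l : (Fin N → RR T) →ₗ[RR T] RR T)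
      (Pi.single l 1)) = (N : ℤ) := by
    rw [Finset.sum_congr rfl (g := fun _ => (1 : ℤ)) fun l _ => by
      rw [LinearMap.proj_apply, Pi.single_eq_same, map_one]]
    rw [Finset.sum_const, Finset.card_univ, Fintype.card_fin, nsmul_eq_mul, mul_one]
  rw [h2] at h1
  exact_mod_cast h1

theorem crk_self : crk T (RR T) = 1 := by
  have h1 := crk_eq (T := T) (P := RR T) (fun _ : Fin 1 => 1)
    (fun _ => LinearMap.id) (fun x => by
      rw [Finset.univ_unique, Finset.sum_singleton, LinearMap.id_apply, smul_eq_mul, mul_one])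
  rw [Finset.univ_unique, Finset.sum_singleton, LinearMap.id_apply, map_one] at h1
  exact_mod_cast h1

theorem crk_punit : crk T PUnit = 0 := by
  have : Subsingleton (PUnit ⧸ Cs T PUnit) := by
    refine ⟨fun a b => ?_⟩
    obtain ⟨x, rfl⟩ := QuotientAddGroup.mk_surjective a
    obtain ⟨y, rfl⟩ := QuotientAddGroup.mk_surjective b
    rfl
  exact Module.finrank_zero_of_subsingleton

end crk

/-- type `FP` with Euler characteristic `c` -/
def EulerFP (G : Type) [Group G] (c : ℤ) : Prop :=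
  ∃ (P : ℕ → Type) (_ : ∀ i, AddCommGroup (P i)) (_ : ∀ i, Module (MonoidAlgebra ℤ G) (P i))
    (d : ∀ i, P (i + 1) →ₗ[MonoidAlgebra ℤ G] P i) (ε : P 0 →+ ℤ) (m : ℕ),
    (∀ i, Module.Finite (MonoidAlgebra ℤ G) (P i)) ∧
    (∀ i, Module.Projective (MonoidAlgebra ℤ G) (P i)) ∧
    (∀ i, m < i → Subsingleton (P i)) ∧
    Function.Surjective ε ∧
    (∀ (g : G) (x : P 0), ε (MonoidAlgebra.of ℤ G g • x) = ε x) ∧
    (∀ x : P 0, ε x = 0 ↔ x ∈ LinearMap.range (d 0)) ∧
    (∀ (i : ℕ) (x : P (i + 1)), d i x = 0 ↔ x ∈ LinearMap.range (d (i + 1))) ∧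
    c = ∑ i ∈ Finset.range (m + 1), (-1) ^ i * (crk G (P i) : ℤ)

section family

variable {T : Type} [Group T] {m : ℕ} (h : Fin m → T)

theorem euler_of_ker (hgen : Subgroup.closure (Set.range h) = ⊤)
    (h1 : Module.Finite (RR T) (LinearMap.ker (bd h)))
    (h2 : Module.Projective (RR T) (LinearMap.ker (bd h))) (B : DB h) :
    EulerFP T (1 - m + ∑ l, eps (B.φ l (B.κ l))) := by
  refine ⟨PF h, inferInstance, inferInstance, dF h, (eps (G := T)).toAddMonoidHom, 2, ?_, ?_, ?_,
    ?_, ?_, ?_, ?_, ?_⟩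
  · intro i
    match i with
    | 0 => exact inferInstanceAs (Module.Finite (RR T) (RR T))
    | 1 => exact inferInstanceAs (Module.Finite (RR T) (Fin m → RR T))
    | 2 => exact h1
    | _ + 3 => exact inferInstanceAs (Module.Finite (RR T) PUnit)
  · intro i
    match i with
    | 0 => exact inferInstanceAs (Module.Projective (RR T) (RR T))
    | 1 => exact inferInstanceAs (Module.Projective (RR T) (Fin m → RR T))
    | 2 => exact h2
    | _ + 3 => exact inferInstanceAs (Module.Projective (RR T) PUnit)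
  · intro i hi
    match i, hi with
    | _ + 3, _ => exact inferInstanceAs (Subsingleton PUnit)
  · intro k
    refine ⟨(k : RR T), ?_⟩
    change eps (k : RR T) = k
    rw [map_intCast]
    rfl
  · intro g (x : RR T)
    change eps (gof g * x) = eps x
    rw [map_mul, eps_of, one_mul]
  · intro x
    change eps x = 0 ↔ x ∈ LinearMap.range (bd h)
    constructor
    · intro hx
      exact bd_surj' h hgen hx
    · rintro ⟨y, rfl⟩
      exact bd_mem h y
  · intro i x
    match i, x with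
    | 0, x =>
      change bd h x = 0 ↔ x ∈ LinearMap.range (LinearMap.ker (bd h)).subtype
      rw [Submodule.range_subtype]
      exact Iff.rfl
    | 1, x =>
      change (LinearMap.ker (bd h)).subtype x = 0 ↔
        x ∈ LinearMap.range (0 : PF h 3 →ₗ[RR T] PF h 2)
      rw [LinearMap.range_zero, Submodule.mem_bot]
      exact map_eq_zero_iff _ (Submodule.subtype_injective _)
    | 2, x =>
      have hs : Subsingleton (PF h 3) := inferInstanceAs (Subsingleton PUnit)
      constructor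
      · intro _
        exact ⟨0, Subsingleton.elim _ _⟩
      · intro _
        rfl
    | i + 3, x =>
      have hs : Subsingleton (PF h (i + 4)) := inferInstanceAs (Subsingleton PUnit)
      constructor
      · intro _
        exact ⟨0, Subsingleton.elim _ _⟩
      · intro _
        rfl
  · rw [Finset.sum_range_succ, Finset.sum_range_succ, Finset.sum_range_one]
    have h3 : (crk T (PF h 0) : ℤ) = 1 := by
      have h4 : crk T (PF h 0) = crk T (RR T) := rfl
      rw [h4, crk_self, Nat.cast_one]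
    have h5 : (crk T (PF h 1) : ℤ) = m := by
      have h4 : crk T (PF h 1) = crk T (Fin m → RR T) := rfl
      rw [h4, crk_free]
    have h6 : (crk T (PF h 2) : ℤ) = ∑ l, eps (B.φ l (B.κ l)) :=
      crk_eq (T := T) (P := LinearMap.ker (bd h)) B.κ B.φ B.hκ
    rw [h3, h5, h6]
    ring

end family

variable {G : Type} [Group G]

/-- **Coherence and indicability.** -/
theorem coh_euler {P : ℕ → Type} [∀ i, AddCommGroup (P i)]
    [∀ i, Module (MonoidAlgebra ℤ G) (P i)] {d : ∀ i, P (i + 1) →ₗ[MonoidAlgebra ℤ G] P i}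
    {ε : P 0 →+ ℤ} (hR : Helper158.Reso P d ε) (m : ℕ)
    (hm : ∀ i, m < i → Subsingleton (P i))
    [∀ i, Module.Finite (MonoidAlgebra ℤ G) (P i)]
    [∀ i, Module.Projective (MonoidAlgebra ℤ G) (P i)]
    (hcoh : ∀ i, i ≠ 3 → Subsingleton (groupCohomology (Rep.leftRegular ℤ G) i))
    (htop : Nonempty (groupCohomology (Rep.leftRegular ℤ G) 3 ≃+ ℤ))
    (S : Subgroup G) (hfg : S.FG) (S₀ : Subgroup S) [S₀.FiniteIndex]
    (h₀ : (∃ p : ℕ, p.Prime ∧ ResP p S₀) ∨
      ∃ (D : Type) (_ : DivisionRing D) (i : RR S₀ →+* D), Function.Injective i)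
    (hind : S.index = 0) (hne : S ≠ ⊥) (hres : (∃ p : ℕ, p.Prime ∧ ResP p S₀) ∨ ResF S) :
    (∃ c : ℤ, c ≤ 0 ∧ EulerFP S c) ∧
      ∃ χ : S →* Multiplicative ℤ, Function.Surjective χ := by
  obtain ⟨w, n, e0, e1, e2, e3, d0, d1, d2, hF, hex2⟩ := exists_fullx hR m hm hcoh htop
  have hOE : OE G := oe_of_H1 (hcoh 1 (by norm_num))
  have hGfg : Group.FG G := fg_of_low hF.low
  have htf : ∀ g : G, g ≠ 1 → ∀ k : ℕ, 0 < k → g ^ k ≠ 1 := by
    intro g hg k hk hgk
    apply hg
    refine Pool.Agent.Q138.PD.torsion_free d ε m inferInstance hm hR.surj hR.equi hR.ex0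
      (fun i => ?_) g (isOfFinOrder_iff_pow_eq_one.2 ⟨k, hk, hgk⟩)
    ext x
    rw [LinearMap.mem_ker]
    exact hR.ex i x
  have hSi : Infinite (G ⧸ S) := by
    rw [← not_finite_iff_infinite]
    intro h
    exact Subgroup.index_ne_zero_of_finite (H := S) hind
  have hGi : Infinite G := by
    by_contra hcon
    rw [not_infinite_iff_finite] at hcon
    exact not_finite (G ⧸ S)
  obtain ⟨k, h, hgen⟩ := exists_gens (H := S) ((Group.fg_iff_subgroup_fg S).2 hfg)
  have hfin := finite_K hF hex2 hOE htf hfg S₀ h₀ h hgen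
  have hproj := projective_ker hF hex2 h hgen
  have hSres : ResF S := by
    rcases hres with ⟨p, -, h1⟩ | h1
    · exact resF_of_finiteIndex S₀ (resF_of_resP h1)
    · exact h1
  obtain ⟨B⟩ := exists_DB h hfin hproj
  have hS : ∃ s ∈ S, s ≠ 1 := by
    obtain ⟨⟨g, hg⟩, hg1⟩ := (Subgroup.ne_bot_iff_exists_ne_one).1 hne
    exact ⟨g, hg, fun h => hg1 (Subtype.ext h)⟩
  have hle := chi_nonpos hF hOE hGi hS (fun s hs k hk h1 =>
    htf s.1 (fun h2 => hs (Subtype.ext h2)) k hk (congrArg Subtype.val h1)) hSres h hgen B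
  refine ⟨⟨_, ?_, euler_of_ker h hgen hfin hproj B⟩, ?_⟩
  · omega
  · obtain ⟨χ, hχ⟩ := exists_hom hgen B hle
    obtain ⟨χ', t, ht⟩ := exists_surj χ hχ
    exact ⟨χ', surj_of_eq ht⟩

end

end Pool.Agent.H26.PD.PX
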