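import Pool.Agent.H26.PX.LocI
import Pool.Agent.H26.PT.SurfG

/-!
Positivity of the rank of a projective module over a residually finite group.
-/

set_option autoImplicit false
set_option linter.unusedSectionVars false

namespace Pool.Agent.H26.PD.PX

open Pool.Agent.Helper386.PD3 Pool.Agent.H26.PD.PN Pool.Agent.H26.PD.PK Pool.Agent.H26.PD.PS
  Pool.Agent.H26.PD.PT
open scoped Classical Matrix

noncomputable section

variable {T : Type} [Group T] {m : ℕ}

theorem exists_sep (hres : ResF T) (F : Finset T) (hF : ∀ t ∈ F, t ≠ 1) :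
    ∃ (P : Type) (_ : Group P) (_ : Finite P) (f : T →* P), ∀ t ∈ F, f t ≠ 1 := by
  induction F using Finset.induction_on with
  | empty =>
    refine ⟨Unit, inferInstance, inferInstance, 1, fun t ht => ?_⟩
    exact absurd ht (Finset.notMem_empty t)
  | insert a F _ ih =>
    obtain ⟨P, iP, fP, f, hf⟩ := ih fun t ht => hF t (Finset.mem_insert_of_mem ht)
    obtain ⟨P', iP', fP', f', hf'⟩ := hres a (hF a (Finset.mem_insert_self _ _))
    refine ⟨P × P', inferInstance, inferInstance, f.prod f', fun t ht => ?_⟩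
    intro h
    have h1 := congrArg Prod.fst h
    have h2 := congrArg Prod.snd h
    change f t = 1 at h1
    change f' t = 1 at h2
    rcases Finset.mem_insert.1 ht with rfl | ht
    · exact hf' h2
    · exact hf t ht h1

/-- **Kaplansky's theorem** for residually finite groups. -/
theorem zero_of_trace (hres : ResF T) {N : ℕ} {E : Matrix (Fin N) (Fin N) (RR T)}
    (hE : E * E = E) (h0 : ∑ i, eps (E i i) = 0) : E = 0 := by
  by_contra hne
  obtain ⟨i, j, hij⟩ : ∃ i j, E i j ≠ 0 := by
    by_contra hcon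
    push Not at hcon
    exact hne (Matrix.ext hcon)
  obtain ⟨F, c, hc, hr⟩ := exists_sum (E i j)
  obtain ⟨t0, ht0, hct⟩ : ∃ t0 ∈ F, c t0 ≠ 0 := by
    by_contra hcon
    push Not at hcon
    apply hij
    rw [hr]
    exact Finset.sum_eq_zero fun g hg => by rw [hcon g hg, zero_smul]
  obtain ⟨Γ, iΓ, fΓ, f, hf⟩ := exists_sep hres ((F.erase t0).image fun t => t * t0⁻¹) (by
    intro t ht
    obtain ⟨s, hs, rfl⟩ := Finset.mem_image.1 ht
    intro h
    exact (Finset.mem_erase.1 hs).1 (mul_inv_eq_one.1 h))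
  have hft : ∀ t ∈ F, f t = f t0 → t = t0 := by
    intro t ht h
    by_contra hne'
    refine hf (t * t0⁻¹) (Finset.mem_image.2 ⟨t, Finset.mem_erase.2 ⟨hne', ht⟩, rfl⟩) ?_
    rw [map_mul, map_inv, h, mul_inv_cancel]
  have : Fintype Γ := Fintype.ofFinite Γ
  let E' : Matrix (Fin N) (Fin N) (RR Γ) := E.map (pf f)
  have hE' : E' * E' = E' := by
    have h1 : (E * E).map (pf f) = E.map (pf f) * E.map (pf f) := Matrix.map_mul
    change E.map (pf f) * E.map (pf f) = E.map (pf f)
    rw [← h1, hE]
  have hE'a : ∀ i j, E' i j = pf f (E i j) := fun _ _ => rfl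
  have htr : (KM E').trace = 0 := by
    rw [KM_trace, swan' hE', Finset.sum_congr rfl fun i _ => by rw [hE'a, eps_pf], h0, mul_zero]
  obtain ⟨a, U, V, hUV, -, ha⟩ := exists_factor (KM E') (KM_idem hE')
  rw [htr] at ha
  have ha0 : a = 0 := by exact_mod_cast ha
  subst ha0
  have hKM : KM E' = 0 := by
    rw [hUV]
    ext x y
    rw [Matrix.mul_apply]
    exact Finset.sum_eq_zero fun k _ => k.elim0
  have hz : E' i j = 0 := by
    apply MonoidAlgebra.coeff_injective
    ext g
    have h1 := congrFun (congrFun hKM (j, g)) (i, 1)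
    rw [KM_apply] at h1
    change (E' i j).coeff ((1 : Γ)⁻¹ * g) = 0 at h1
    rw [inv_one, one_mul] at h1
    exact h1
  have h1 := congrArg (addR fun y : Γ => if y = f t0 then (1 : ℤ) else 0) hz
  rw [hE'a, hr, map_sum, map_sum, map_zero, Finset.sum_eq_single t0] at h1
  · rw [map_zsmul, map_zsmul, pf_of, addR_of, if_pos rfl, smul_eq_mul, mul_one] at h1
    exact hct h1
  · intro t ht hne'
    rw [map_zsmul, map_zsmul, pf_of, addR_of, if_neg fun h => hne' (hft t ht h), smul_zero]
  · intro h
    exact absurd ht0 h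

theorem exists_nonneg {N : ℕ} {E : Matrix (Fin N) (Fin N) (RR T)} (hE : E * E = E) :
    ∃ r : ℕ, (r : ℤ) = ∑ i, eps (E i i) ∧ True := by
  have he : E.map eps * E.map eps = (E.map eps : Matrix (Fin N) (Fin N) ℤ) := by
    have h1 : (E * E).map eps = E.map eps * E.map eps := Matrix.map_mul
    rw [← h1, hE]
  obtain ⟨a, U, V, -, -, ha⟩ := exists_factor (E.map eps) he
  exact ⟨a, ha, trivial⟩

/-- the rank of the second syzygy is positive, or the group has cohomological dimension at most
one -/
theorem cd_or_pos (hres : ResF T) {h : Fin m → T} (hgen : Subgroup.closure (Set.range h) = ⊤)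
    (B : DB h) : CdLE 1 T ∨ 1 ≤ ∑ l, eps (B.φ l (B.κ l)) := by
  let E : Matrix (Fin B.N) (Fin B.N) (RR T) := fun l j => B.φ j (B.κ l)
  have hE : E * E = E := by
    ext1 l j
    rw [Matrix.mul_apply]
    change ∑ k, B.φ k (B.κ l) * B.φ j (B.κ k) = B.φ j (B.κ l)
    conv_rhs => rw [B.hκ (B.κ l), map_sum]
    exact Finset.sum_congr rfl fun k _ => by rw [map_smul, smul_eq_mul]
  by_cases h0 : ∑ i, eps (E i i) = 0
  · left
    have hE0 := zero_of_trace hres hE h0
    have hκ0 : ∀ l, B.κ l = 0 := by
      intro l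
      rw [B.hκ (B.κ l)]
      refine Finset.sum_eq_zero fun j _ => ?_
      have h1 : B.φ j (B.κ l) = 0 := congrFun (congrFun hE0 l) j
      rw [h1, zero_smul]
    have hker : ∀ x : LinearMap.ker (bd h), x = 0 := by
      intro x
      rw [B.hκ x]
      exact Finset.sum_eq_zero fun l _ => by rw [hκ0, smul_zero]
    have hinj : Function.Injective (bdA h) := by
      rw [← LinearMap.ker_eq_bot, ker_bdA, Submodule.eq_bot_iff]
      intro x hx
      exact congrArg Subtype.val (hker ⟨x, hx⟩)
    have hproj : Module.Projective (RR T) (AI T) := Module.Projective.of_equiv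
      (LinearEquiv.ofBijective (bdA h) ⟨hinj, bdA_surj h hgen⟩)
    exact cdle_one_of_proj T hproj
  · right
    obtain ⟨r, hr, -⟩ := exists_nonneg hE
    change 1 ≤ ∑ i, eps (E i i)
    omega

end

end Pool.Agent.H26.PD.PX
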