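import Pool.Agent.H26.PX.Inv

/-!
Local indicability of residually `p` groups with infinite abelianization.
-/

set_option autoImplicit false
set_option linter.unusedSectionVars false

namespace Pool.Agent.H26.PD.PX

open Pool.Agent.Helper386.PD3 Pool.Agent.H26.PD.PN Pool.Agent.H26.PD.PK Pool.Agent.H26.PD.PS
  Pool.Agent.H26.PD.PT
open scoped Classical Matrix

noncomputable section

variable {G : Type} [Group G]

theorem locInd_of_b1 {P : ℕ → Type} [∀ i, AddCommGroup (P i)]
    [∀ i, Module (MonoidAlgebra ℤ G) (P i)] {d : ∀ i, P (i + 1) →ₗ[MonoidAlgebra ℤ G] P i}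
    {ε : P 0 →+ ℤ} (hR : Helper158.Reso P d ε) (m : ℕ)
    (hm : ∀ i, m < i → Subsingleton (P i))
    [∀ i, Module.Finite (MonoidAlgebra ℤ G) (P i)]
    [∀ i, Module.Projective (MonoidAlgebra ℤ G) (P i)]
    (hcoh : ∀ i, i ≠ 3 → Subsingleton (groupCohomology (Rep.leftRegular ℤ G) i))
    (htop : Nonempty (groupCohomology (Rep.leftRegular ℤ G) 3 ≃+ ℤ))
    (hres : (∃ p : ℕ, p.Prime ∧ ResP p G) ∨
      ((∃ (D : Type) (_ : DivisionRing D) (i : RR G →+* D), Function.Injective i) ∧ ResF G))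
    (χ : G →* Multiplicative ℤ) (hχ : χ ≠ 1) : LocInd G := by
  intro T hT hT0
  by_cases hind : T.index = 0
  · have h₀ : (∃ p : ℕ, p.Prime ∧ ResP p (⊤ : Subgroup T)) ∨
        ∃ (D : Type) (_ : DivisionRing D) (i : RR (⊤ : Subgroup T) →+* D),
          Function.Injective i := by
      rcases hres with ⟨p, hp, h⟩ | ⟨⟨D, iD, i, hi⟩, -⟩
      · exact Or.inl ⟨p, hp, resP_of_inj (T.subtype.comp (⊤ : Subgroup T).subtype)
          (T.subtype_injective.comp (Subgroup.subtype_injective _)) h⟩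
      · exact Or.inr ⟨D, iD, i.comp (pf (T.subtype.comp (⊤ : Subgroup T).subtype)),
          hi.comp (pf_inj _ (T.subtype_injective.comp (Subgroup.subtype_injective _)))⟩
    have h₁ : (∃ p : ℕ, p.Prime ∧ ResP p (⊤ : Subgroup T)) ∨ ResF T := by
      rcases hres with ⟨p, hp, h⟩ | ⟨-, h⟩
      · exact Or.inl ⟨p, hp, resP_of_inj (T.subtype.comp (⊤ : Subgroup T).subtype)
          (T.subtype_injective.comp (Subgroup.subtype_injective _)) h⟩
      · exact Or.inr (h.of_inj T.subtype T.subtype_injective)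
    obtain ⟨-, f, hf⟩ := coh_euler hR m hm hcoh htop T hT ⊤ h₀ hind hT0 h₁
    refine ⟨f, ?_⟩
    rintro rfl
    obtain ⟨x, hx⟩ := hf (Multiplicative.ofAdd 1)
    have h1 : (1 : ℤ) = 0 := congrArg Multiplicative.toAdd hx.symm
    exact one_ne_zero h1
  · refine ⟨χ.comp T.subtype, ?_⟩
    intro h
    apply hχ
    ext g
    obtain ⟨i, hi, -, hgi⟩ := Subgroup.exists_pow_mem_of_index_ne_zero hind g
    have h1 : χ (g ^ i) = 1 :=
      congrArg (fun f : T →* Multiplicative ℤ => f ⟨g ^ i, hgi⟩) h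
    rw [map_pow] at h1
    have h2 : i • (χ g).toAdd = 0 := congrArg Multiplicative.toAdd h1
    rw [nsmul_eq_mul] at h2
    rcases mul_eq_zero.1 h2 with h3 | h3
    · exact absurd (Nat.cast_eq_zero.1 h3) hi.ne'
    · rw [MonoidHom.one_apply, toAdd_one]
      exact h3

end

end Pool.Agent.H26.PD.PX
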