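import Pool.Agent.H26.PX.Hom

/-!
Coherence and indicability for `PD_3`-groups.
-/

set_option autoImplicit false
set_option linter.unusedSectionVars false

namespace Pool.Agent.H26.PD.PX

open Pool.Agent.Helper386.PD3 Pool.Agent.H26.PD.PN Pool.Agent.H26.PD.PK Pool.Agent.H26.PD.PS
  Pool.Agent.H26.PD.PT
open scoped Classical Matrix

noncomputable section

theorem surj_of_eq {S : Type} [Group S] {χ : S →* Multiplicative ℤ} {t : S}
    (ht : χ t = Multiplicative.ofAdd 1) : Function.Surjective χ := by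
  intro k
  refine ⟨t ^ k.toAdd, ?_⟩
  rw [map_zpow, ht, ← ofAdd_zsmul, smul_eq_mul, mul_one]
  rfl

section subgroups

variable {G : Type} [Group G] {n : ℕ} {w : G →* ℤˣ} {e0 e1 e2 e3 d0 d1 d2 : MR G n}

/-- a residual condition: residually `p`, or group ring in a division ring and locally indicable
or residually finite -/
def GdI (A : Type) [Group A] : Prop :=
  (∃ p : ℕ, p.Prime ∧ ResP p A) ∨
    ((∃ (D : Type) (_ : DivisionRing D) (i : RR A →+* D), Function.Injective i) ∧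
      (LocInd A ∨ ResF A))

theorem GdI.gd {A : Type} [Group A] (h : GdI A) : Gd A := by
  rcases h with h | ⟨h, -⟩
  · exact Or.inl h
  · exact Or.inr h

theorem GdI.cases {A : Type} [Group A] (h : GdI A) : LocInd A ∨ ResF A := by
  rcases h with ⟨p, -, h⟩ | ⟨-, h⟩
  · exact Or.inr (resF_of_resP h)
  · exact h

/-- Good subgroups of infinite index are locally indicable. -/
theorem locInd_of_resF (hF : Full w e0 e1 e2 e3 d0 d1 d2)
    (hex2 : ∀ v, v ᵥ* e2 = v → v ᵥ* d1 = 0 → ∃ u, u ᵥ* d2 = v) (hOE : OE G) [Group.FG G]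
    (htf : ∀ g : G, g ≠ 1 → ∀ k : ℕ, 0 < k → g ^ k ≠ 1) {A : Type} [Group A] (j : A →* G)
    (hj : Function.Injective j) [Infinite (G ⧸ j.range)] (hGd : Gd A) (hres : ResF A) :
    LocInd A := by
  intro C hC hC0
  let i : C →* G := j.comp C.subtype
  have hi : Function.Injective i := hj.comp C.subtype_injective
  let T : Subgroup G := C.map j
  let e : C ≃* T := C.equivMapOfInjective j hj
  have hTj : T ≤ j.range := by
    rintro _ ⟨x, -, rfl⟩
    exact ⟨x, rfl⟩
  have hTi : Infinite (G ⧸ T) := infinite_quot hTj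
  have hC' : Group.FG C := (Group.fg_iff_subgroup_fg C).2 hC
  have hT' : Group.FG T := Group.fg_of_surjective (f := e.toMonoidHom) e.surjective
  have hTGd : Gd T := hGd.of_inj (C.subtype.comp e.symm.toMonoidHom)
    (C.subtype_injective.comp e.symm.injective)
  have hTres : ResF T := hres.of_inj (C.subtype.comp e.symm.toMonoidHom)
    (C.subtype_injective.comp e.symm.injective)
  have hT0 : T ≠ ⊥ := by
    intro h
    apply hC0
    rw [Subgroup.map_eq_bot_iff_of_injective _ hj] at h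
    exact h
  have hK : FGK T := (fgk_sub hF hex2 hOE htf T hTGd ⊤
    (Group.fg_def.1 hT')).equiv Subgroup.topEquiv
  obtain ⟨χ, hχ⟩ := indicable hF hex2 hOE htf T hT0 hK hTres
  refine ⟨χ.comp e.toMonoidHom, ?_⟩
  intro h
  apply hχ
  ext x
  have h1 := congrArg (fun f : C →* Multiplicative ℤ => f (e.symm x)) h
  change χ (e (e.symm x)) = 1 at h1
  rw [e.apply_symm_apply] at h1
  rw [h1]
  rfl

theorem GdI.locInd (hF : Full w e0 e1 e2 e3 d0 d1 d2)
    (hex2 : ∀ v, v ᵥ* e2 = v → v ᵥ* d1 = 0 → ∃ u, u ᵥ* d2 = v) (hOE : OE G) [Group.FG G]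
    (htf : ∀ g : G, g ≠ 1 → ∀ k : ℕ, 0 < k → g ^ k ≠ 1) (N : Subgroup G) [Infinite (G ⧸ N)]
    (N₀ : Subgroup N) (h : GdI N₀) : LocInd N₀ := by
  rcases h.cases with h1 | h1
  · exact h1
  · have hr : (N.subtype.comp N₀.subtype).range ≤ N := by
      rintro _ ⟨x, rfl⟩
      exact (x : N).2
    have : Infinite (G ⧸ (N.subtype.comp N₀.subtype).range) := infinite_quot hr
    exact locInd_of_resF hF hex2 hOE htf (N.subtype.comp N₀.subtype)
      (N.subtype_injective.comp N₀.subtype_injective) h.gd h1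

end subgroups

variable {G : Type} [Group G]

/-- **Coherence and indicability.** -/
theorem coh_ind {P : ℕ → Type} [∀ i, AddCommGroup (P i)]
    [∀ i, Module (MonoidAlgebra ℤ G) (P i)] {d : ∀ i, P (i + 1) →ₗ[MonoidAlgebra ℤ G] P i}
    {ε : P 0 →+ ℤ} (hR : Helper158.Reso P d ε) (m : ℕ)
    (hm : ∀ i, m < i → Subsingleton (P i))
    [∀ i, Module.Finite (MonoidAlgebra ℤ G) (P i)]
    [∀ i, Module.Projective (MonoidAlgebra ℤ G) (P i)]
    (hcoh : ∀ i, i ≠ 3 → Subsingleton (groupCohomology (Rep.leftRegular ℤ G) i))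
    (htop : Nonempty (groupCohomology (Rep.leftRegular ℤ G) 3 ≃+ ℤ))
    (S : Subgroup G) (hfg : S.FG) (S₀ : Subgroup S) [S₀.FiniteIndex]
    (h₀ : (∃ p : ℕ, p.Prime ∧ ResP p S₀) ∨
      ∃ (D : Type) (_ : DivisionRing D) (i : RR S₀ →+* D), Function.Injective i)
    (hind : S.index = 0) (hne : S ≠ ⊥) (hres : (∃ p : ℕ, p.Prime ∧ ResP p S₀) ∨ ResF S) :
    ∃ χ : S →* Multiplicative ℤ, Function.Surjective χ := by
  obtain ⟨w, n, e0, e1, e2, e3, d0, d1, d2, hF, hex2⟩ := exists_fullx hR m hm hcoh htop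
  have hOE : OE G := oe_of_H1 (hcoh 1 (by norm_num))
  have hGfg : Group.FG G := fg_of_low hF.low
  have htf : ∀ g : G, g ≠ 1 → ∀ k : ℕ, 0 < k → g ^ k ≠ 1 := by
    intro g hg k hk hgk
    apply hg
    refine Pool.Agent.Q138.PD.torsion_free d ε m inferInstance hm hR.surj hR.equi hR.ex0
      (fun i => ?_) g (isOfFinOrder_iff_pow_eq_one.2 ⟨k, hk, hgk⟩)
    ext x
    rw [LinearMap.mem_ker]
    exact hR.ex i x
  have hSi : Infinite (G ⧸ S) := by
    rw [← not_finite_iff_infinite]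
    intro h
    exact Subgroup.index_ne_zero_of_finite (H := S) hind
  obtain ⟨k, h, hgen⟩ := exists_gens (H := S) ((Group.fg_iff_subgroup_fg S).2 hfg)
  have hfin := finite_K hF hex2 hOE htf hfg S₀ h₀ h hgen
  have hK : FGK S := ⟨k, h, hgen, Module.Finite.iff_fg.1 hfin⟩
  have hS : ResF S := by
    rcases hres with ⟨p, -, h1⟩ | h1
    · exact resF_of_finiteIndex S₀ (resF_of_resP h1)
    · exact h1
  obtain ⟨χ, hχ⟩ := indicable hF hex2 hOE htf S hne hK hS
  obtain ⟨χ', t, ht⟩ := exists_surj χ hχ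
  exact ⟨χ', surj_of_eq ht⟩

end

end Pool.Agent.H26.PD.PX
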