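import Pool.Agent.H26.PX.Cov
import Pool.Agent.H26.PN.Proj

/-!
Swan's theorem: the trace of an idempotent matrix over the integral group ring of a finite group
is concentrated in the identity element.
-/

set_option autoImplicit false
set_option linter.unusedSectionVars false

namespace Pool.Agent.H26.PD.PX

open Pool.Agent.Helper386.PD3
open scoped Classical Matrix

noncomputable section

variable {Γ : Type} [Group Γ]

/-! ## Permutation modules -/

section perm

variable (X : Type) [Fintype X] [MulAction Γ X]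

/-- permutation matrices -/
def perm : Γ →* Matrix X X ℤ where
  toFun g := fun x x' => if g • x' = x then 1 else 0
  map_one' := by
    ext x x'
    change (if (1 : Γ) • x' = x then (1 : ℤ) else 0) = (1 : Matrix X X ℤ) x x'
    rw [one_smul, Matrix.one_apply]
    by_cases h : x' = x
    · rw [if_pos h, if_pos h.symm]
    · rw [if_neg h, if_neg fun h' => h h'.symm]
  map_mul' g h := by
    ext x x'
    refine Eq.trans ?_ (Matrix.mul_apply).symm
    change (if (g * h) • x' = x then (1 : ℤ) else 0) =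
      ∑ y, (if g • y = x then (1 : ℤ) else 0) * (if h • x' = y then 1 else 0)
    rw [Finset.sum_eq_single (h • x')]
    · rw [if_pos rfl, mul_one, mul_smul]
    · intro y _ hy
      rw [if_neg (c := h • x' = y) (fun h' => hy h'.symm), mul_zero]
    · intro h'
      exact absurd (Finset.mem_univ _) h'

/-- the permutation representation -/
def Rp : RR Γ →+* Matrix X X ℤ := liftR (perm X)

theorem Rp_gof (g : Γ) (x x' : X) : Rp X (gof g) x x' = if g • x' = x then 1 else 0 := by
  have h1 : Rp X (gof g) = perm X g := liftR_of _ _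
  rw [h1]
  rfl

theorem Rp_add (a b : RR Γ) (x x' : X) : Rp X (a + b) x x' = Rp X a x x' + Rp X b x x' := by
  rw [map_add]
  rfl

theorem Rp_neg (a : RR Γ) (x x' : X) : Rp X (-a) x x' = -Rp X a x x' := by
  rw [map_neg]
  rfl

variable {ι : Type} [Fintype ι]

/-- the integer matrix of a matrix over the group ring -/
def BM (E : Matrix ι ι (RR Γ)) : Matrix (ι × X) (ι × X) ℤ := fun a b => Rp X (E a.1 b.1) a.2 b.2

theorem BM_apply (E : Matrix ι ι (RR Γ)) (a b : ι × X) :
    BM X E a b = Rp X (E a.1 b.1) a.2 b.2 := rfl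

theorem BM_idem {E : Matrix ι ι (RR Γ)} (hE : E * E = E) : BM X E * BM X E = BM X E := by
  ext ⟨i, x⟩ ⟨j, x'⟩
  rw [Matrix.mul_apply, Fintype.sum_prod_type]
  simp only [BM_apply]
  have h1 : ∀ k, ∑ y, Rp X (E i k) x y * Rp X (E k j) y x' = Rp X (E i k * E k j) x x' := by
    intro k
    rw [map_mul, Matrix.mul_apply]
  rw [Finset.sum_congr rfl fun k _ => h1 k]
  conv_rhs => rw [← hE, Matrix.mul_apply, map_sum]
  rw [Matrix.sum_apply]

/-- the diagonal sum -/
def tau (E : Matrix ι ι (RR Γ)) (x : X) : ℤ := ∑ i, Rp X (E i i) x x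

theorem BM_trace (E : Matrix ι ι (RR Γ)) : (BM X E).trace = ∑ x, tau X E x := by
  unfold tau
  rw [Finset.sum_comm]
  change ∑ a : ι × X, Rp X (E a.1 a.1) a.2 a.2 = _
  rw [Fintype.sum_prod_type]

end perm

section cover

variable {X Y : Type} [Fintype X] [Fintype Y] [MulAction Γ X] [MulAction Γ Y]
  {ι : Type} [Fintype ι] {p : ℕ} [hp : Fact p.Prime] {π : X → Y} {σ : X → X}

/-- the trace and coverings -/
theorem BM_cover (hπ : Function.Surjective π) (hσ : ∀ x, π (σ x) = π x)
    (hper : ∀ x, σ^[p] x = x) (hfree : ∀ x, σ x ≠ x)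
    (horb : ∀ x x', π x = π x' → ∃ j, σ^[j] x = x') (hπΓ : ∀ (g : Γ) x, π (g • x) = g • π x)
    (hσΓ : ∀ (g : Γ) x, σ (g • x) = g • σ x) {E : Matrix ι ι (RR Γ)} (hE : E * E = E) :
    (BM X E).trace = p * (BM Y E).trace := by
  have hσi : Function.Injective σ := by
    have h1 : Function.Surjective σ := by
      intro x
      refine ⟨σ^[p - 1] x, ?_⟩
      rw [← Function.iterate_succ_apply' σ, Nat.succ_eq_add_one, Nat.sub_add_cancel hp.out.one_le]
      exact hper x
    exact Finite.injective_iff_surjective.2 h1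
  have hit : ∀ (j : ℕ) (a : ι × X), (Prod.map id σ)^[j] a = (a.1, σ^[j] a.2) := by
    intro j
    induction j with
    | zero => intro a; rfl
    | succ j ih => intro a; rw [Function.iterate_succ_apply', ih, Function.iterate_succ_apply']; rfl
  refine trace_cover (π := Prod.map (id : ι → ι) π) (σ := Prod.map (id : ι → ι) σ) ?_ ?_ ?_ ?_ ?_
    (BM X E) (BM Y E) (BM_idem X hE) (BM_idem Y hE) ?_ ?_
  · exact Function.surjective_id.prodMap hπ
  · rintro ⟨i, x⟩
    exact Prod.ext rfl (hσ x)
  · intro a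
    rw [hit, hper]
  · rintro ⟨i, x⟩ h
    exact hfree x (congrArg Prod.snd h)
  · rintro ⟨i, x⟩ ⟨i', x'⟩ h
    obtain ⟨j, hj⟩ := horb x x' (congrArg Prod.snd h)
    have h0 : i = i' := congrArg Prod.fst h
    refine ⟨j, ?_⟩
    rw [hit]
    exact Prod.ext h0 hj
  · rintro ⟨i, x⟩ ⟨i', x'⟩
    change Rp X (E i i') (σ x) (σ x') = Rp X (E i i') x x'
    generalize E i i' = r
    induction r using rr_ind with
    | h1 g =>
      rw [Rp_gof, Rp_gof, ← hσΓ]
      by_cases h : g • x' = x
      · rw [if_pos h, if_pos (congrArg σ h)]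
      · rw [if_neg h, if_neg fun h' => h (hσi h')]
    | h2 a b ha hb => rw [Rp_add, Rp_add, ha, hb]
    | h3 a ha => rw [Rp_neg, Rp_neg, ha]
  · rintro ⟨i, y⟩ ⟨i', x'⟩
    have h1 : ∑ a ∈ Finset.univ.filter (fun a : ι × X => Prod.map id π a = (i, y)),
        BM X E a (i', x') = ∑ x ∈ Finset.univ.filter (fun x => π x = y),
          Rp X (E i i') x x' := by
      refine (Finset.sum_bij (fun x _ => (i, x)) ?_ ?_ ?_ ?_).symm
      · intro x hx
        refine Finset.mem_filter.2 ⟨Finset.mem_univ _, Prod.ext rfl (Finset.mem_filter.1 hx).2⟩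
      · intro x _ x' _ h
        exact congrArg Prod.snd h
      · rintro ⟨k, x⟩ h
        have h2 := (Finset.mem_filter.1 h).2
        refine ⟨x, Finset.mem_filter.2 ⟨Finset.mem_univ _, congrArg Prod.snd h2⟩, ?_⟩
        exact Prod.ext (congrArg Prod.fst h2).symm rfl
      · intro x _
        rfl
    refine (Finset.sum_congr (by ext a; simp) fun _ _ => rfl).trans (h1.trans ?_)
    change _ = Rp Y (E i i') y (π x')
    generalize E i i' = r
    induction r using rr_ind with
    | h1 g =>
      simp only [Rp_gof]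
      rw [← hπΓ]
      by_cases h : π (g • x') = y
      · rw [if_pos h, Finset.sum_eq_single (g • x')]
        · rw [if_pos rfl]
        · intro x _ hx
          rw [if_neg fun h' => hx h'.symm]
        · intro h'
          exact absurd (Finset.mem_filter.2 ⟨Finset.mem_univ (g • x'), h⟩) h'
      · rw [if_neg h]
        refine Finset.sum_eq_zero fun x hx => ?_
        rw [if_neg]
        rintro rfl
        exact h (Finset.mem_filter.1 hx).2
    | h2 a b ha hb =>
      rw [Rp_add, ← ha, ← hb, ← Finset.sum_add_distrib]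
      exact Finset.sum_congr rfl fun x _ => Rp_add _ _ _ _ _
    | h3 a ha =>
      rw [Rp_neg, ← ha, ← Finset.sum_neg_distrib]
      exact Finset.sum_congr rfl fun x _ => Rp_neg _ _ _ _

end cover

/-! ## Cyclic subgroups -/

section cyc

variable [Fintype Γ] {ι : Type} [Fintype ι]

/-- right multiplication on cosets -/
def rmul (c c' : Γ) (h : ∀ x ∈ Subgroup.zpowers c', c * x = x * c) :
    Γ ⧸ Subgroup.zpowers c' → Γ ⧸ Subgroup.zpowers c' :=
  Quotient.map' (fun x => x * c) (by
    intro x y hxy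
    rw [QuotientGroup.leftRel_apply] at hxy ⊢
    have h1 : (x * c)⁻¹ * (y * c) = x⁻¹ * y := by
      rw [mul_inv_rev, mul_assoc, ← mul_assoc x⁻¹, ← h _ hxy, ← mul_assoc, inv_mul_cancel, one_mul]
    rw [h1]
    exact hxy)

theorem rmul_mk (c c' : Γ) (h : ∀ x ∈ Subgroup.zpowers c', c * x = x * c) (x : Γ) :
    rmul c c' h (x : Γ ⧸ Subgroup.zpowers c') = ((x * c : Γ) : Γ ⧸ Subgroup.zpowers c') := rfl

/-- one step -/
theorem step {E : Matrix ι ι (RR Γ)} (hE : E * E = E) (c : Γ) {p : ℕ} [hp : Fact p.Prime]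
    (hpc : p ∣ orderOf c) : (BM (Γ ⧸ Subgroup.zpowers (c ^ p)) E).trace =
      p * (BM (Γ ⧸ Subgroup.zpowers c) E).trace := by
  have hle : Subgroup.zpowers (c ^ p) ≤ Subgroup.zpowers c := by
    rw [Subgroup.zpowers_le]
    exact Subgroup.npow_mem_zpowers c p
  have hcomm : ∀ x ∈ Subgroup.zpowers (c ^ p), c * x = x * c := by
    intro x hx
    obtain ⟨k, rfl⟩ := hle hx
    exact (Commute.refl c).zpow_right k
  let π : Γ ⧸ Subgroup.zpowers (c ^ p) → Γ ⧸ Subgroup.zpowers c := Subgroup.quotientMapOfLE hle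
  let σ := rmul c (c ^ p) hcomm
  have hπm : ∀ x : Γ, π (x : Γ ⧸ Subgroup.zpowers (c ^ p)) = (x : Γ ⧸ Subgroup.zpowers c) :=
    fun _ => rfl
  have hσm : ∀ x : Γ, σ (x : Γ ⧸ Subgroup.zpowers (c ^ p)) =
      ((x * c : Γ) : Γ ⧸ Subgroup.zpowers (c ^ p)) := fun _ => rfl
  have hσj : ∀ (j : ℕ) (x : Γ), σ^[j] (x : Γ ⧸ Subgroup.zpowers (c ^ p)) =
      ((x * c ^ j : Γ) : Γ ⧸ Subgroup.zpowers (c ^ p)) := by
    intro j
    induction j with
    | zero => intro x; rw [pow_zero, mul_one]; rfl
    | succ j ih => intro x; rw [Function.iterate_succ_apply', ih, hσm, mul_assoc, ← pow_succ]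
  refine BM_cover (π := π) (σ := σ) ?_ ?_ ?_ ?_ ?_ ?_ ?_ hE
  · intro q
    obtain ⟨x, rfl⟩ := QuotientGroup.mk_surjective q
    exact ⟨(x : Γ ⧸ _), rfl⟩
  · intro q
    obtain ⟨x, rfl⟩ := QuotientGroup.mk_surjective q
    rw [hσm, hπm, hπm, QuotientGroup.eq]
    rw [mul_inv_rev, mul_assoc, inv_mul_cancel, mul_one]
    exact Subgroup.inv_mem _ (Subgroup.mem_zpowers c)
  · intro q
    obtain ⟨x, rfl⟩ := QuotientGroup.mk_surjective q
    rw [hσj, QuotientGroup.eq, mul_inv_rev, mul_assoc, inv_mul_cancel, mul_one]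
    exact Subgroup.inv_mem _ (Subgroup.mem_zpowers _)
  · intro q
    obtain ⟨x, rfl⟩ := QuotientGroup.mk_surjective q
    rw [hσm, Ne, QuotientGroup.eq, mul_inv_rev, mul_assoc, inv_mul_cancel, mul_one]
    intro h
    have h1 := Subgroup.inv_mem _ h
    rw [inv_inv] at h1
    obtain ⟨k, hk⟩ := h1
    change (c ^ p) ^ k = c at hk
    have h2 : c ^ ((p : ℤ) * k - 1) = 1 := by
      rw [zpow_sub, zpow_one, zpow_mul, zpow_natCast, hk, mul_inv_cancel]
    have h3 : (orderOf c : ℤ) ∣ (p : ℤ) * k - 1 := orderOf_dvd_iff_zpow_eq_one.2 h2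
    have h4 : (p : ℤ) ∣ (p : ℤ) * k - 1 := (Int.natCast_dvd_natCast.2 hpc).trans h3
    have h5 : (p : ℤ) ∣ 1 := by
      have h6 := Int.dvd_sub (Dvd.intro k rfl) h4
      rwa [sub_sub_cancel] at h6
    have h7 := Int.le_of_dvd one_pos h5
    have h8 := hp.out.two_le
    omega
  · intro q q' h
    obtain ⟨x, rfl⟩ := QuotientGroup.mk_surjective q
    obtain ⟨y, rfl⟩ := QuotientGroup.mk_surjective q'
    have h1 : (x : Γ ⧸ Subgroup.zpowers c) = (y : Γ ⧸ Subgroup.zpowers c) := h
    rw [QuotientGroup.eq] at h1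
    obtain ⟨j, hj⟩ := mem_powers_iff_mem_zpowers.2 h1
    refine ⟨j, ?_⟩
    change c ^ j = x⁻¹ * y at hj
    rw [hσj, hj, mul_inv_cancel_left]
  · intro g q
    obtain ⟨x, rfl⟩ := QuotientGroup.mk_surjective q
    rfl
  · intro g q
    obtain ⟨x, rfl⟩ := QuotientGroup.mk_surjective q
    change (((g * x) * c : Γ) : Γ ⧸ Subgroup.zpowers (c ^ p)) = ((g * (x * c) : Γ) : Γ ⧸ _)
    rw [mul_assoc]

theorem cyclic {E : Matrix ι ι (RR Γ)} (hE : E * E = E) (c : Γ) :
    (orderOf c : ℤ) * (BM (Γ ⧸ Subgroup.zpowers c) E).trace =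
      (BM (Γ ⧸ Subgroup.zpowers (1 : Γ)) E).trace := by
  induction hn : orderOf c using Nat.strong_induction_on generalizing c with
  | _ n ih =>
    by_cases h1 : n = 1
    · have hc : c = 1 := by rw [← orderOf_eq_one_iff, hn, h1]
      subst hc
      rw [h1, Nat.cast_one, one_mul]
    · have hp : (Nat.minFac n).Prime := Nat.minFac_prime h1
      have : Fact (Nat.minFac n).Prime := ⟨hp⟩
      have hn0 : 0 < n := hn ▸ orderOf_pos c
      have hd : Nat.minFac n ∣ orderOf c := hn ▸ Nat.minFac_dvd n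
      have hord : orderOf (c ^ Nat.minFac n) = n / Nat.minFac n := by
        rw [orderOf_pow_of_dvd hp.ne_zero hd, hn]
      have h2 := ih _ (Nat.div_lt_self hn0 hp.one_lt) (c ^ Nat.minFac n) hord
      rw [step hE c hd, ← mul_assoc] at h2
      rw [← h2]
      congr 1
      rw [← Nat.cast_mul, Nat.div_mul_cancel (Nat.minFac_dvd n)]

end cyc

/-! ## Swan's theorem -/

section swan

variable [Fintype Γ] {ι : Type} [Fintype ι]

/-- the trace of a matrix, as a function on the group -/
def tf (E : Matrix ι ι (RR Γ)) (g : Γ) : ℤ := ∑ i, (E i i).coeff g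

theorem Rp_diag (C : Subgroup Γ) (r : RR Γ) (x : Γ) :
    Rp (Γ ⧸ C) r (x : Γ ⧸ C) (x : Γ ⧸ C) = ∑ d : C, r.coeff (x * d * x⁻¹) := by
  induction r using rr_ind with
  | h1 g =>
    rw [Rp_gof]
    have hco : ∀ y, (gof g : RR Γ).coeff y = if g = y then 1 else 0 := by
      intro y
      change (MonoidAlgebra.single g (1 : ℤ)).coeff y = _
      rw [MonoidAlgebra.coeff_single, Finsupp.single_apply]
    by_cases h : g • (x : Γ ⧸ C) = (x : Γ ⧸ C)
    · rw [if_pos h]
      have h1 : ((g * x : Γ) : Γ ⧸ C) = (x : Γ ⧸ C) := h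
      rw [eq_comm, QuotientGroup.eq] at h1
      rw [Finset.sum_eq_single ⟨x⁻¹ * (g * x), h1⟩]
      · rw [hco, if_pos]
        change g = x * (x⁻¹ * (g * x)) * x⁻¹
        group
      · rintro ⟨d, hd⟩ _ hne
        rw [hco, if_neg]
        intro h2
        apply hne
        apply Subtype.ext
        change g = x * d * x⁻¹ at h2
        change d = x⁻¹ * (g * x)
        rw [h2]
        group
      · intro h2
        exact absurd (Finset.mem_univ _) h2
    · rw [if_neg h]
      refine (Finset.sum_eq_zero fun d _ => ?_).symm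
      rw [hco, if_neg]
      intro h2
      apply h
      change ((g * x : Γ) : Γ ⧸ C) = (x : Γ ⧸ C)
      rw [eq_comm, QuotientGroup.eq, h2]
      have h3 : x⁻¹ * (x * (d : Γ) * x⁻¹ * x) = d := by group
      rw [h3]
      exact d.2
  | h2 a b ha hb =>
    rw [Rp_add, ha, hb, ← Finset.sum_add_distrib]
    rfl
  | h3 a ha =>
    rw [Rp_neg, ha, ← Finset.sum_neg_distrib]
    rfl

theorem tau_mk (E : Matrix ι ι (RR Γ)) (C : Subgroup Γ) (x : Γ) :
    tau (Γ ⧸ C) E (x : Γ ⧸ C) = ∑ d : C, tf E (x * d * x⁻¹) := by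
  unfold tau tf
  rw [Finset.sum_comm]
  exact Finset.sum_congr rfl fun i _ => Rp_diag C _ x

/-- the class function -/
def TT (E : Matrix ι ι (RR Γ)) (d : Γ) : ℤ := ∑ x, tf E (x * d * x⁻¹)

theorem card_trace (E : Matrix ι ι (RR Γ)) (C : Subgroup Γ) :
    (Fintype.card C : ℤ) * (BM (Γ ⧸ C) E).trace = ∑ d : C, TT E d := by
  unfold TT
  rw [Finset.sum_comm]
  have h1 : ∑ x : Γ, ∑ d : C, tf E (x * d * x⁻¹) = ∑ x : Γ, tau (Γ ⧸ C) E (x : Γ ⧸ C) :=
    Finset.sum_congr rfl fun x _ => (tau_mk E C x).symm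
  rw [h1, ← Equiv.sum_comp (Subgroup.groupEquivQuotientProdSubgroup (s := C)).symm,
    Fintype.sum_prod_type, BM_trace, Finset.mul_sum]
  refine Finset.sum_congr rfl fun q _ => ?_
  have h2 : ∀ c : C, (((Subgroup.groupEquivQuotientProdSubgroup (s := C)).symm (q, c) : Γ) :
      Γ ⧸ C) = q := by
    intro c
    have h3 := (Subgroup.groupEquivQuotientProdSubgroup (s := C)).apply_symm_apply (q, c)
    exact congrArg Prod.fst h3
  rw [Finset.sum_congr rfl fun c _ => by rw [h2 c], Finset.sum_const, Finset.card_univ,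
    nsmul_eq_mul]

theorem sum_zpowers {E : Matrix ι ι (RR Γ)} (hE : E * E = E) (c : Γ) :
    ∑ d ∈ Finset.univ.filter (fun d => d ∈ Subgroup.zpowers c), TT E d = TT E 1 := by
  have h0 : ∀ C : Subgroup Γ, ∑ d ∈ Finset.univ.filter (fun d => d ∈ C), TT E d =
      ∑ d : C, TT E d := by
    intro C
    exact (Finset.sum_subtype _ (fun d => by simp) _)
  have h1 := card_trace E (Subgroup.zpowers c)
  have h2 := card_trace E (Subgroup.zpowers (1 : Γ))
  have hc : (Fintype.card (Subgroup.zpowers c) : ℤ) = orderOf c := by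
    rw [← Nat.card_eq_fintype_card, Nat.card_zpowers]
  have hc1 : (Fintype.card (Subgroup.zpowers (1 : Γ)) : ℤ) = 1 := by
    rw [← Nat.card_eq_fintype_card, Nat.card_zpowers, orderOf_one, Nat.cast_one]
  rw [hc, cyclic hE, ← h0] at h1
  rw [hc1, one_mul, ← h0] at h2
  rw [← h1, h2]
  have h3 : Finset.univ.filter (fun d => d ∈ Subgroup.zpowers (1 : Γ)) = {1} := by
    ext d
    simp
  rw [h3, Finset.sum_singleton]

/-- **Swan.** -/
theorem swan {E : Matrix ι ι (RR Γ)} (hE : E * E = E) : ∑ g, tf E g = tf E 1 := by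
  let F : Subgroup Γ → ℤ := fun D =>
    ∑ g ∈ Finset.univ.filter (fun g => Subgroup.zpowers g = D), TT E g
  have hF1 : F ⊥ = TT E 1 := by
    have h3 : Finset.univ.filter (fun g : Γ => Subgroup.zpowers g = ⊥) = {1} := by
      ext d
      simp
    change ∑ g ∈ _, _ = _
    rw [h3, Finset.sum_singleton]
  have hFe : ∀ D : Subgroup Γ, (∀ g, Subgroup.zpowers g ≠ D) → F D = 0 := by
    intro D hD
    refine Finset.sum_eq_zero fun g hg => ?_
    exact absurd (Finset.mem_filter.1 hg).2 (hD g)
  have hF0 : ∀ (n : ℕ) (c : Γ), orderOf c = n → c ≠ 1 → F (Subgroup.zpowers c) = 0 := by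
    intro n
    induction n using Nat.strong_induction_on with
    | _ n ih =>
      intro c hn hc
      have h1 := sum_zpowers hE c
      rw [← Finset.sum_fiberwise (Finset.univ.filter (fun d => d ∈ Subgroup.zpowers c))
        (fun g => Subgroup.zpowers g)] at h1
      have h2 : ∀ D : Subgroup Γ, D ≠ ⊥ → D ≠ Subgroup.zpowers c →
          ∑ g ∈ (Finset.univ.filter (fun d => d ∈ Subgroup.zpowers c)).filter
            (fun g => Subgroup.zpowers g = D), TT E g = 0 := by
        intro D hD1 hD2
        by_cases hDc : D ≤ Subgroup.zpowers c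
        · have h3 : (Finset.univ.filter (fun d => d ∈ Subgroup.zpowers c)).filter
              (fun g => Subgroup.zpowers g = D) =
              Finset.univ.filter (fun g => Subgroup.zpowers g = D) := by
            ext g
            simp only [Finset.mem_filter, Finset.mem_univ, true_and, and_iff_right_iff_imp]
            intro hg
            exact hDc (hg ▸ Subgroup.mem_zpowers g)
          rw [h3]
          change F D = 0
          by_cases hDz : ∃ g, Subgroup.zpowers g = D
          · obtain ⟨g, rfl⟩ := hDz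
            refine ih _ ?_ g rfl ?_
            · rw [← hn, ← Nat.card_zpowers, ← Nat.card_zpowers]
              refine lt_of_le_of_ne (Nat.card_le_card_of_injective _
                (Subgroup.inclusion_injective hDc)) ?_
              intro h4
              exact hD2 (Subgroup.eq_of_le_of_card_ge hDc h4.ge)
            · rintro rfl
              exact hD1 Subgroup.zpowers_one_eq_bot
          · push Not at hDz
            exact hFe D hDz
        · refine Finset.sum_eq_zero fun g hg => ?_
          exfalso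
          apply hDc
          obtain ⟨h4, h5⟩ := Finset.mem_filter.1 hg
          rw [← h5, Subgroup.zpowers_le]
          exact (Finset.mem_filter.1 h4).2
      have hne : (⊥ : Subgroup Γ) ≠ Subgroup.zpowers c := fun h =>
        hc (Subgroup.zpowers_eq_bot.1 h.symm)
      rw [← Finset.add_sum_erase _ _ (Finset.mem_univ (⊥ : Subgroup Γ)),
        ← Finset.add_sum_erase _ _ (Finset.mem_erase.2 ⟨hne.symm, Finset.mem_univ
          (Subgroup.zpowers c)⟩), Finset.sum_eq_zero (s := ((Finset.univ.erase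
            (⊥ : Subgroup Γ)).erase (Subgroup.zpowers c))) (fun D hD => by
          rw [Finset.mem_erase, Finset.mem_erase] at hD
          exact h2 D hD.2.1 hD.1), add_zero] at h1
      have h4 : (Finset.univ.filter (fun d => d ∈ Subgroup.zpowers c)).filter
          (fun g => Subgroup.zpowers g = ⊥) =
          Finset.univ.filter (fun g => Subgroup.zpowers g = ⊥) := by
        ext g
        simp only [Finset.mem_filter, Finset.mem_univ, true_and, and_iff_right_iff_imp]
        intro hg
        rw [Subgroup.zpowers_eq_bot.1 hg]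
        exact Subgroup.one_mem _
      have h5 : (Finset.univ.filter (fun d => d ∈ Subgroup.zpowers c)).filter
          (fun g => Subgroup.zpowers g = Subgroup.zpowers c) =
          Finset.univ.filter (fun g => Subgroup.zpowers g = Subgroup.zpowers c) := by
        ext g
        simp only [Finset.mem_filter, Finset.mem_univ, true_and, and_iff_right_iff_imp]
        intro hg
        rw [← hg]
        exact Subgroup.mem_zpowers g
      rw [h4, h5] at h1
      change F ⊥ + F (Subgroup.zpowers c) = TT E 1 at h1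
      rw [hF1] at h1
      linarith
  have h1 : ∑ g, TT E g = TT E 1 := by
    rw [← Finset.sum_fiberwise Finset.univ (fun g : Γ => Subgroup.zpowers g),
      Finset.sum_eq_single (⊥ : Subgroup Γ)]
    · exact hF1
    · intro D _ hD
      by_cases hDz : ∃ g, Subgroup.zpowers g = D
      · obtain ⟨g, rfl⟩ := hDz
        refine hF0 _ g rfl ?_
        rintro rfl
        exact hD Subgroup.zpowers_one_eq_bot
      · push Not at hDz
        exact hFe D hDz
    · intro h
      exact absurd (Finset.mem_univ _) h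
  unfold TT at h1
  rw [Finset.sum_comm] at h1
  have h2 : ∀ x : Γ, ∑ g, tf E (x * g * x⁻¹) = ∑ g, tf E g := fun x =>
    Equiv.sum_comp (MulAut.conj x).toEquiv (tf E)
  have h4 : ∀ x : Γ, tf E (x * 1 * x⁻¹) = tf E 1 := fun x => by rw [mul_one, mul_inv_cancel]
  rw [Finset.sum_congr rfl fun x _ => h2 x, Finset.sum_const,
    Finset.sum_congr rfl fun x _ => h4 x, Finset.sum_const] at h1
  have h3 : (Finset.univ : Finset Γ).card ≠ 0 := by
    rw [Finset.card_univ]
    exact Fintype.card_ne_zero
  exact smul_right_injective ℤ h3 h1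

theorem eps_sum (r : RR Γ) : eps r = ∑ g, r.coeff g := by
  induction r using rr_ind with
  | h1 g =>
    rw [eps_of]
    have hco : ∀ y, (gof g : RR Γ).coeff y = if g = y then 1 else 0 := by
      intro y
      change (MonoidAlgebra.single g (1 : ℤ)).coeff y = _
      rw [MonoidAlgebra.coeff_single, Finsupp.single_apply]
    simp only [hco]
    rw [Finset.sum_ite_eq, if_pos (Finset.mem_univ g)]
  | h2 a b ha hb =>
    rw [map_add, ha, hb, ← Finset.sum_add_distrib]
    rfl
  | h3 a ha =>
    rw [map_neg, ha, ← Finset.sum_neg_distrib]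
    rfl

/-- **Swan.** -/
theorem swan' {E : Matrix ι ι (RR Γ)} (hE : E * E = E) :
    ∑ i, (E i i).coeff 1 = ∑ i, eps (E i i) := by
  have h1 := swan hE
  change ∑ i, (E i i).coeff 1 = _
  unfold tf at h1
  rw [← h1, Finset.sum_comm]
  exact Finset.sum_congr rfl fun i _ => (eps_sum _).symm

end swan

end

end Pool.Agent.H26.PD.PX
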